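import Mathlib

/-!
Combinatorial core: two-colourings of an abelian group along a 3 by 3 array of vectors
with vanishing row and column sums.
-/

set_option autoImplicit false

namespace Pool.Agent.H58.ER

/-- The local conditions at the point `x` for a colouring `f` and an array `e` of vectors:
row triangles and column triangles at `x` are not monochromatic, and in no minor of the array
do the four neighbours of `x` all have the colour opposite to `x`. -/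
structure GoodAt {A : Type*} [AddCommGroup A] (f : A → Bool) (e : Fin 3 → Fin 3 → A) (x : A) :
    Prop where
  row : ∀ i j j', j ≠ j' → ¬ (f x = f (x + e i j) ∧ f x = f (x - e i j'))
  col : ∀ i i' j, i ≠ i' → ¬ (f x = f (x + e i j) ∧ f x = f (x - e i' j))
  face : ∀ i i' j j', i ≠ i' → j ≠ j' →
    ¬ (f (x + e i j) ≠ f x ∧ f (x - e i j') ≠ f x ∧ f (x - e i' j) ≠ f x ∧
      f (x + e i' j') ≠ f x)

/-- `GoodN n f e x`: the local conditions hold at all points reached from `x` by at most `n`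
steps `± e i j`. -/
def GoodN {A : Type*} [AddCommGroup A] : ℕ → (A → Bool) → (Fin 3 → Fin 3 → A) → A → Prop
  | 0, f, e, x => GoodAt f e x
  | n + 1, f, e, x => GoodN n f e x ∧ ∀ i j, GoodN n f e (x + e i j) ∧ GoodN n f e (x - e i j)

/-! ### Certificates -/

/-- Vectors of the free abelian group of rank four. -/
abbrev V4 := ℤ × ℤ × ℤ × ℤ

/-- Refutation trees. -/
inductive Tr where
  | rw (p : List ℕ) (i j j' : Fin 3) : Tr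
  | cl (p : List ℕ) (i i' j : Fin 3) : Tr
  | fc (p : List ℕ) (i i' j j' : Fin 3) : Tr
  | br (p : List ℕ) (t f : Tr) : Tr

/-- The array of vectors in coordinates. -/
def vec : Fin 3 → Fin 3 → V4
  | 0, 0 => (1, 0, 0, 0)
  | 0, 1 => (0, 1, 0, 0)
  | 0, 2 => (-1, -1, 0, 0)
  | 1, 0 => (0, 0, 1, 0)
  | 1, 1 => (0, 0, 0, 1)
  | 1, 2 => (0, 0, -1, -1)
  | 2, 0 => (-1, 0, -1, 0)
  | 2, 1 => (0, -1, 0, -1)
  | 2, 2 => (1, 1, 1, 1)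

/-- The cell with number `d`. -/
def ci (d : ℕ) : Fin 3 := ⟨d / 3 % 3, Nat.mod_lt _ (by norm_num)⟩

/-- The cell with number `d`. -/
def cj (d : ℕ) : Fin 3 := ⟨d % 3, Nat.mod_lt _ (by norm_num)⟩

/-- Step with number `d` (`0..8` positive, `9..` negative). -/
def stp (d : ℕ) (x : V4) : V4 := if d < 9 then x + vec (ci d) (cj d) else x - vec (ci d) (cj d)

/-- End point of a path. -/
def pt : List ℕ → V4
  | [] => 0
  | d :: p => stp d (pt p)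

/-- Look up a value. -/
def lk : List (V4 × Bool) → V4 → Option Bool
  | [], _ => none
  | (y, b) :: l, x => if x = y then some b else lk l x

/-- The checker. -/
def chk : Tr → List (V4 × Bool) → Bool
  | .rw p i j j', l => decide (p.length ≤ 3) && decide (j ≠ j') &&
      (match lk l (pt p), lk l (pt p + vec i j), lk l (pt p - vec i j') with
        | some a, some b, some c => (a == b) && (a == c)
        | _, _, _ => false)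
  | .cl p i i' j, l => decide (p.length ≤ 3) && decide (i ≠ i') &&
      (match lk l (pt p), lk l (pt p + vec i j), lk l (pt p - vec i' j) with
        | some a, some b, some c => (a == b) && (a == c)
        | _, _, _ => false)
  | .fc p i i' j j', l => decide (p.length ≤ 3) && decide (i ≠ i') && decide (j ≠ j') &&
      (match lk l (pt p), lk l (pt p + vec i j), lk l (pt p - vec i j'),
          lk l (pt p - vec i' j), lk l (pt p + vec i' j') with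
        | some a, some b, some c, some d, some g =>
          (b == !a) && (c == !a) && (d == !a) && (g == !a)
        | _, _, _, _, _ => false)
  | .br p t f, l => chk t ((pt p, true) :: l) && chk f ((pt p, false) :: l)

def tree0 : Tr :=
  (.br [9] (.br [6] (.cl [] 2 0 0) (.br [1] (.rw [] 0 1 0) (.br [3] (.cl [] 1 0 0) (.br [2] (.rw
  [] 0 2 0) (.br [5] (.br [12] (.rw [] 1 2 0) (.br [11] (.cl [] 1 0 2) (.br [1,12] (.br [0,11]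
  (.br [5,11] (.br [0,5] (.rw [5] 0 0 2) (.br [11,12] (.fc [11] 1 2 2 0) (.br [0] (.br [0,12] (.br
  [0,0] (.rw [0] 0 0 2) (.br [0,17] (.fc [12] 1 2 0 1) (.br [10] (.rw [] 0 0 1) (.br [0,0,17] (.br
  [0,10] (.fc [0,0] 0 2 2 0) (.rw [10] 0 0 1)) (.rw [0,17] 0 0 2))))) (.rw [12] 0 0 2)) (.fc
  [0,11] 0 2 2 0)))) (.cl [11] 1 0 2)) (.rw [11] 0 0 2)) (.rw [12] 0 1 0)))) (.br [17] (.br [1,17]
  (.fc [6] 1 2 0 1) (.br [7] (.rw [] 2 1 2) (.br [2,13] (.fc [2] 0 1 1 2) (.br [1,6] (.br [13]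
  (.br [3,7] (.br [2,7] (.br [2,3] (.br [2,15] (.br [2,17] (.br [10,17] (.rw [17] 0 2 1) (.br
  [9,17] (.rw [17] 0 2 0) (.br [7,17] (.fc [10,17] 0 1 1 0) (.br [2,9] (.br [6,9] (.br [7,10] (.br
  [2,6] (.fc [9,17] 1 2 1 2) (.br [10] (.fc [7] 0 1 2 1) (.br [2,12] (.br [2,10] (.br [2,10,12]
  (.br [2,2] (.fc [2] 0 2 2 1) (.br [2,2,12] (.rw [2,12] 0 2 1) (.fc [2,17] 1 2 1 2))) (.fc [2,10]
  0 1 0 2)) (.cl [10] 0 2 2)) (.rw [6] 0 2 1)))) (.fc [2,7] 0 1 0 2)) (.fc [9] 1 2 2 0)) (.fc [9]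
  0 2 2 1))))) (.br [2,2,13] (.br [9,17] (.br [2,9] (.rw [2,3] 2 0 2) (.br [2,9,13] (.br [2,3,13]
  (.fc [2,13] 0 1 2 0) (.br [9,13] (.fc [2,13] 0 2 1 0) (.br [3,9] (.br [3,13] (.br [1,13] (.br
  [1,9] (.br [9,14] (.rw [9] 1 0 2) (.br [11,13] (.rw [13] 0 1 2) (.br [1,3] (.fc [9,13] 0 2 0 2)
  (.br [2,16] (.br [1,15] (.br [16] (.fc [6] 1 2 0 2) (.br [11] (.fc [1] 0 2 0 1) (.br [1,16] (.br
  [1,11] (.br [1,1] (.fc [1] 0 2 1 0) (.br [1,11,15] (.br [1,1,15] (.rw [1,15] 0 1 2) (.fc [1,13]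
  1 2 1 2)) (.fc [1,11] 0 2 0 1))) (.rw [11] 0 1 0)) (.cl [16] 0 1 1)))) (.cl [1] 1 2 0)) (.fc [9]
  0 1 2 1))))) (.fc [9] 0 1 1 2)) (.fc [13] 0 2 1 0)) (.fc [3,7] 0 2 1 0)) (.fc [2,3] 0 1 1 2))))
  (.cl [2,9] 0 1 1))) (.fc [17] 0 1 2 0)) (.fc [2,7] 0 2 1 0))) (.fc [3,7] 1 2 1 0)) (.rw [2] 1 0
  1)) (.rw [7] 0 2 0)) (.cl [7] 1 0 0)) (.cl [13] 2 1 0)) (.cl [6] 0 1 1))))) (.br [2,12] (.br
  [0,17] (.br [12] (.br [10,12] (.rw [12] 0 2 1) (.br [4] (.cl [12] 0 1 2) (.br [10] (.fc [10,12]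
  0 1 1 0) (.br [4,10] (.br [10,17] (.br [2,10,12] (.cl [10,17] 1 2 1) (.fc [4,10] 1 2 2 1)) (.fc
  [2,12] 1 2 0 1)) (.cl [10] 1 2 1))))) (.fc [] 1 2 2 0)) (.rw [17] 0 0 2)) (.cl [17] 1 2
  1)))))))) (.br [6,9] (.br [3,9] (.br [1,9] (.br [2,9] (.br [2,13] (.br [2,9,13] (.br [9,17] (.cl
  [2,13] 2 0 0) (.br [2,3,13] (.cl [2,13] 1 0 0) (.br [9,13] (.cl [3,9] 1 2 2) (.br [2,2,13] (.rw
  [2,13] 0 2 0) (.br [1,9,17] (.br [1,17] (.br [2,3] (.fc [2,3,13] 1 2 1 0) (.br [1,6,17] (.rw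
  [6,9] 1 2 1) (.br [1,6] (.fc [1,6,17] 1 2 0 2) (.br [2,2] (.br [2] (.rw [2] 0 2 0) (.br [17]
  (.br [3] (.br [6] (.cl [17] 0 2 1) (.br [5] (.rw [17] 0 1 2) (.br [1,3] (.rw [3] 0 1 0) (.br
  [13] (.rw [] 1 0 1) (.br [1,12] (.br [5,6] (.br [1] (.br [1,13] (.br [5,13] (.br [1,5] (.fc [5]
  0 2 1 0) (.br [11] (.rw [] 0 1 2) (.br [11,13] (.br [1,11] (.fc [1,5] 1 2 0 2) (.rw [11] 0 1 2))
  (.fc [5,13] 1 2 1 2)))) (.rw [13] 1 2 0)) (.cl [1,13] 0 1 2)) (.fc [1,17] 1 2 1 2)) (.fc [1,17]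
  1 2 1 0)) (.rw [6] 0 1 2)))))) (.fc [2,13] 1 2 1 2)) (.fc [2,13] 1 2 1 0))) (.br [2,17] (.br [2]
  (.br [2,7] (.rw [2] 2 1 2) (.br [17] (.cl [17] 0 1 2) (.br [10] (.rw [] 0 2 1) (.br [7] (.fc
  [17] 1 2 0 2) (.br [7,10] (.br [2,10] (.br [10,17] (.fc [2,7] 1 2 1 0) (.fc [7,10] 0 2 1 0))
  (.rw [10] 0 2 1)) (.cl [10] 2 0 1)))))) (.fc [2,9] 0 2 0 1)) (.rw [2,17] 1 0 2)))))) (.cl [9] 1
  2 2)) (.fc [6,9] 1 2 0 1)))))) (.br [9,13] (.br [9,17] (.br [1,3] (.cl [1,3] 0 2 2) (.br [13]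
  (.rw [13] 0 2 0) (.br [3] (.fc [9] 1 2 0 1) (.br [1,17] (.fc [9] 1 2 2 1) (.br [1] (.br [5] (.br
  [11] (.rw [] 0 1 2) (.br [1,13] (.fc [1,3] 1 2 2 0) (.br [5,11] (.br [1,5] (.rw [5] 0 1 2) (.fc
  [1] 1 2 2 1)) (.cl [11] 1 0 2)))) (.cl [13] 2 1 0)) (.fc [] 0 1 1 0)))))) (.fc [2,9] 0 1 1 2))
  (.fc [3,9] 1 2 2 0))) (.br [9,17] (.br [2] (.br [2,6] (.cl [2,6] 0 1 1) (.br [10] (.rw [] 0 2 1)
  (.br [17] (.cl [] 0 2 2) (.br [2,17] (.fc [2,6] 1 2 0 1) (.br [2,10] (.br [2,7] (.cl [2] 2 0 1)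
  (.fc [2] 1 2 2 1)) (.rw [10] 0 2 1)))))) (.cl [2] 0 1 1)) (.rw [9] 2 1 2))) (.rw [9] 0 2 0))
  (.rw [9] 0 1 0)) (.cl [9] 1 0 0)) (.cl [9] 2 0 0)))

def tree1 : Tr :=
  (.br [2,9] (.br [2,10] (.br [2,17] (.br [2] (.br [17] (.cl [17] 0 1 2) (.br [2,6] (.rw [2] 2 0
  2) (.br [9] (.rw [] 0 2 0) (.br [2,2,12] (.fc [2,2] 0 1 0 2) (.br [9,17] (.fc [2,6] 1 2 0 1)
  (.br [6,9] (.br [2,12] (.br [6] (.fc [17] 1 2 1 2) (.fc [6,9] 0 2 0 1)) (.rw [2,12] 0 2 0)) (.cl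
  [9] 2 0 0))))))) (.br [2,14] (.br [6] (.br [9] (.cl [] 2 0 0) (.br [6,9] (.br [2,16] (.br [2,6]
  (.rw [6] 0 2 0) (.br [9,16] (.fc [9] 1 2 1 0) (.br [2,2,16] (.br [2,9,16] (.rw [2,16] 0 2 0)
  (.fc [6,9] 1 2 0 2)) (.fc [2,9] 0 1 0 1)))) (.cl [2] 0 2 1)) (.cl [9] 2 0 0))) (.br [9] (.br
  [9,17] (.cl [9] 0 2 2) (.br [3] (.cl [] 1 0 0) (.br [9,14] (.cl [9] 0 1 2) (.br [2,13,17] (.br
  [2,2,13] (.rw [2,17] 1 0 1) (.br [2,7] (.br [2,3] (.br [10,17] (.cl [10,17] 1 0 0) (.br [2,13]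
  (.fc [2,2,13] 0 1 0 2) (.br [17] (.br [2,15] (.br [1,17] (.fc [6] 1 2 0 1) (.br [10] (.fc [2] 0
  2 0 1) (.br [6,9] (.br [2,12] (.br [2,10,12] (.br [2,6] (.fc [9,17] 1 2 1 2) (.br [2,2,12] (.rw
  [2,12] 0 2 1) (.fc [2,17] 1 2 1 2))) (.fc [2,10] 0 1 0 2)) (.rw [10] 2 0 2)) (.fc [9] 1 2 2
  0)))) (.fc [2,3] 0 1 0 2)) (.cl [17] 1 0 0)))) (.fc [2,9] 0 2 0 1)) (.fc [2,17] 1 2 0 2))) (.br
  [2,13] (.br [2,3] (.fc [2] 0 1 1 0) (.br [2,15] (.br [14] (.br [2,2,15] (.br [10,14] (.cl [14] 2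
  0 1) (.br [10] (.fc [2] 0 2 0 2) (.br [2,10,15] (.rw [2,15] 0 2 1) (.fc [2,10] 0 2 0 2)))) (.fc
  [2,14] 1 2 2 1)) (.fc [2,14] 0 1 1 2)) (.rw [3] 0 2 1))) (.rw [2,13] 2 0 2)))))) (.br [17] (.br
  [2,13] (.br [9,17] (.rw [17] 0 2 0) (.br [2,7] (.fc [2] 1 2 2 1) (.br [2,9,13] (.br [2,2,13]
  (.rw [2,13] 0 2 0) (.fc [2,17] 1 2 0 2)) (.fc [2,9] 0 1 1 2)))) (.cl [2] 0 1 1)) (.fc [] 0 2 2
  0)))) (.cl [2] 0 1 2))) (.br [2,2,12] (.br [2] (.br [2,4] (.rw [2,10] 2 0 1) (.br [2,6] (.cl [2]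
  2 0 0) (.br [17] (.cl [] 0 2 2) (.br [2,12] (.fc [2,4] 1 2 2 1) (.fc [2] 1 2 2 0))))) (.cl [2] 0
  2 2)) (.rw [2,17] 1 1 2))) (.br [10] (.br [2] (.rw [] 0 2 1) (.rw [2] 0 2 1)) (.rw [10] 0 2 1)))
  (.br [9] (.br [2] (.rw [] 0 2 0) (.rw [2] 0 2 0)) (.rw [9] 0 2 0)))

def tree2 : Tr :=
  (.br [2] (.br [10] (.rw [] 0 2 1) (.br [9] (.rw [] 0 2 0) (.br [14] (.cl [] 0 1 2) (.br [4,10]
  (.br [2,10] (.br [2,9] (.br [2,14] (.br [2,4] (.cl [2] 1 0 1) (.br [2,2] (.rw [2] 0 2 1) (.br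
  [2,6] (.cl [2] 2 0 0) (.br [10,14] (.fc [2,4] 1 2 0 1) (.br [2,2,16] (.fc [2,2] 0 2 1 2) (.br
  [4] (.br [2,16] (.fc [14] 1 2 2 0) (.cl [2,16] 0 2 2)) (.fc [4,10] 0 1 1 0))))))) (.cl [14] 0 1
  2)) (.rw [9] 0 2 0)) (.rw [10] 0 2 1)) (.cl [10] 1 0 1))))) (.br [4] (.br [10] (.cl [] 1 0 1)
  (.br [14] (.rw [] 1 1 2) (.br [4,10] (.br [2,15] (.br [4,14] (.br [2,4] (.rw [4] 0 2 1) (.br
  [10,14] (.fc [2,4] 0 2 0 2) (.fc [2,15] 1 2 1 0))) (.rw [14] 1 1 2)) (.cl [10] 1 0 0)) (.cl [10]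
  1 0 1)))) (.br [14] (.br [3] (.rw [] 1 0 2) (.br [9] (.br [6] (.cl [] 2 0 0) (.br [1,14] (.fc
  [3] 1 2 1 0) (.br [2,16] (.fc [2] 0 2 1 2) (.br [4,6] (.br [2,6] (.br [2,4] (.br [2,12] (.br
  [2,9] (.br [9,17] (.rw [2,6] 1 0 1) (.br [2,2,16] (.rw [2,6] 1 0 2) (.br [9,14] (.cl [9] 0 1 2)
  (.br [6,9] (.fc [9,17] 1 2 1 2) (.br [2,14,16] (.br [2,14] (.br [3,14] (.br [6,17] (.br [4,14]
  (.fc [14,14] 1 2 2 0) (.br [10,14] (.rw [14] 0 2 1) (.br [2,14,15] (.fc [14,14] 1 2 2 1) (.br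
  [2,3] (.fc [9,14] 0 2 0 1) (.br [17] (.fc [6] 0 2 2 1) (.br [0,14] (.br [2,15] (.br [2,17] (.br
  [10] (.fc [4] 1 2 0 1) (.br [2,2] (.fc [2] 0 2 2 0) (.br [2,10] (.br [2,2,15] (.br [2,10,15]
  (.rw [2,15] 0 2 1) (.fc [2,10] 0 2 0 2)) (.fc [2,14] 1 2 2 1)) (.rw [10] 0 2 1)))) (.rw [17] 0 2
  0)) (.rw [10,14] 1 0 1)) (.fc [14] 0 1 0 1))))))) (.fc [2,6] 0 1 1 2)) (.fc [14] 0 1 1 0)) (.fc
  [2,4] 0 1 1 0)) (.cl [2,16] 0 1 2)))))) (.br [2,2,16] (.br [2,9,16] (.br [9,14] (.br [2,14] (.cl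
  [2,14] 2 1 0) (.br [2,14,16] (.fc [2,16] 0 1 2 0) (.rw [14,14] 2 0 2))) (.fc [9] 0 1 2 1)) (.cl
  [2,9] 0 2 1)) (.fc [2,6] 1 2 0 2))) (.fc [4,6] 1 2 0 1)) (.rw [4] 0 2 0)) (.cl [6] 0 1 2)) (.rw
  [6] 1 1 2))))) (.br [6,9] (.br [3,9] (.br [1,14] (.br [2,16] (.br [2,9] (.br [2,13] (.br [9,14]
  (.rw [14] 0 1 0) (.br [2,3] (.br [1,9,14] (.br [2,9,16] (.br [1,3,14] (.cl [1,14] 1 0 0) (.br
  [2,6,16] (.rw [6,9] 1 1 2) (.br [2,2,16] (.rw [2,16] 0 2 0) (.br [1,3] (.fc [1,3,14] 1 2 2 0)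
  (.br [2,6] (.fc [2,6,16] 1 2 0 1) (.br [3,3] (.br [2,4] (.br [3,14] (.fc [3] 0 1 2 0) (.br
  [2,14] (.fc [2] 1 2 1 2) (.fc [14] 0 1 2 0))) (.fc [2,16] 0 2 2 1)) (.fc [3,9] 0 2 0 2)))))))
  (.fc [2,9] 0 2 1 2)) (.fc [3,9] 1 2 1 0)) (.fc [2,13] 1 2 1 2))) (.cl [2] 0 1 1)) (.rw [9] 0 2
  0)) (.cl [2] 0 2 1)) (.rw [3] 2 0 1)) (.cl [3] 2 0 0)) (.cl [9] 2 0 0)))) (.br [2,15] (.br
  [3,14] (.br [2,14] (.br [10] (.br [2,16] (.br [7] (.rw [10] 1 0 1) (.br [10,14] (.rw [10] 1 0 2)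
  (.br [2,4] (.br [15] (.fc [7] 1 2 1 2) (.br [2,14,15] (.br [2,2,16] (.rw [2,16] 0 2 1) (.br
  [2,3,15] (.rw [2,15] 1 0 2) (.br [14,15] (.cl [14,15] 0 2 2) (.br [2,14,16] (.fc [2,2,16] 0 2 0
  2) (.br [2,3] (.fc [2,3,15] 1 2 1 0) (.br [3] (.br [9,14] (.br [9] (.cl [] 1 0 0) (.br [3,9]
  (.fc [2,3] 0 2 1 2) (.cl [9] 1 0 0))) (.fc [2,14] 0 2 1 2)) (.fc [2,15] 0 2 1 2))))))) (.fc
  [2,14] 0 2 0 2))) (.fc [2,16] 0 2 0 1)))) (.cl [14] 2 1 0)) (.fc [] 0 1 2 1)) (.cl [14] 0 1 2))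
  (.rw [14] 1 0 2)) (.rw [14] 2 1 2)))))

def tree3 : Tr :=
  (.br [9] (.br [6] (.cl [] 2 0 0) (.br [1] (.rw [] 0 1 0) (.br [3] (.cl [] 1 0 0) (.br [2] (.rw
  [] 0 2 0) (.br [17] (.br [1,17] (.fc [6] 1 2 0 1) (.br [5] (.cl [] 1 2 2) (.br [2,13] (.fc [2] 0
  1 1 2) (.br [13] (.br [5,13] (.br [13,17] (.cl [13] 1 2 2) (.br [9,13] (.br [9,17] (.br [3,9]
  (.rw [9] 1 0 1) (.br [2,9,13] (.fc [2,13] 0 2 1 0) (.rw [3,9] 2 0 2))) (.fc [17] 0 1 1 0)) (.fc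
  [13] 0 2 2 0))) (.rw [5] 1 2 1)) (.rw [13] 2 0 1))))) (.br [2,12] (.br [1,17] (.br [6,17] (.br
  [2,17] (.br [2,13] (.br [2,6] (.br [9,17] (.cl [9] 1 2 2) (.br [2,2,12] (.cl [2,17] 1 2 1) (.br
  [2,6,12] (.rw [2,6] 1 2 0) (.br [2,2] (.br [2,9] (.fc [2] 0 2 2 0) (.br [6,9] (.br [1,6] (.fc
  [6] 0 1 1 0) (.br [2,16] (.fc [6] 0 1 2 0) (.br [6,6] (.fc [6] 0 2 2 0) (.br [1,12] (.br [6,16]
  (.br [4,6] (.br [16] (.br [6,12] (.br [1,6,17] (.br [1,6,12] (.br [12,16] (.rw [12,16] 0 2 0)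
  (.br [12] (.fc [6] 0 2 0 2) (.br [1,17,17] (.cl [6,17] 0 1 1) (.br [5,6] (.rw [5,6] 0 2 0) (.br
  [1,12,12] (.rw [6,12] 0 1 2) (.br [12,17] (.br [5] (.br [17,17] (.br [12,12] (.br [5,17] (.fc
  [17] 1 2 2 0) (.br [5,12] (.fc [12] 1 2 2 0) (.fc [5] 1 2 2 0))) (.fc [6,12] 0 2 0 2)) (.fc
  [6,17] 1 2 0 1)) (.fc [] 1 2 2 0)) (.fc [2,12] 0 1 1 2))))))) (.fc [6,16] 1 2 2 1)) (.fc [6,9] 0
  1 0 2)) (.rw [6,12] 0 2 0)) (.cl [16] 0 2 2)) (.rw [6] 1 1 2)) (.cl [6] 0 2 1)) (.rw [6] 0 1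
  2))))) (.fc [9] 0 2 2 0))) (.br [2,10] (.br [2,9] (.br [2,14] (.br [2,4] (.br [2,3] (.fc [2] 0 1
  1 0) (.br [10,14] (.cl [10,14] 2 0 0) (.br [10] (.fc [2] 0 1 0 1) (.br [2,15] (.br [2,2,15] (.br
  [2,10,15] (.rw [2,15] 0 2 1) (.fc [2,10] 0 2 0 2)) (.fc [2,14] 1 2 2 1)) (.rw [3] 0 2 1)))))
  (.fc [2,10] 0 2 1 0)) (.cl [2] 0 1 2)) (.rw [2] 0 2 0)) (.cl [2,10] 2 0 0)))))) (.fc [2,12] 0 1
  1 0)) (.rw [17] 1 0 2)) (.cl [17] 0 1 2)) (.rw [17] 2 0 1)) (.cl [17] 0 2 1)) (.cl [17] 1 2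
  1))))))) (.br [6,9] (.br [2,9] (.br [2,13] (.br [2] (.br [10] (.rw [] 0 2 1) (.br [17] (.cl [] 0
  2 2) (.br [2,7] (.cl [2] 2 1 1) (.br [9,17] (.fc [9] 0 2 2 1) (.br [7,10] (.br [2,10] (.br [7]
  (.fc [17] 1 2 0 2) (.br [2,17] (.br [10,17] (.fc [2,7] 1 2 1 0) (.fc [7,10] 0 2 1 0)) (.rw [17]
  0 2 0))) (.rw [10] 0 2 1)) (.cl [10] 2 0 1)))))) (.br [2,16] (.br [9,17] (.br [2,6] (.cl [2,6] 0
  1 1) (.br [17] (.cl [17] 1 0 0) (.br [6] (.br [6,6] (.cl [6] 2 0 0) (.br [6,17] (.fc [2,6] 0 1 1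
  2) (.br [1,17] (.fc [9] 1 2 2 0) (.br [1,6,17] (.br [12,17] (.br [5,6] (.br [1,17,17] (.br
  [5,17] (.cl [12,17] 0 1 1) (.br [1,5,17] (.fc [1,17] 1 2 2 0) (.rw [5,17] 0 1 2))) (.fc [9,17] 0
  1 0 2)) (.fc [6] 1 2 2 1)) (.cl [17] 2 1 0)) (.cl [6,17] 0 2 1))))) (.fc [2,16] 1 2 2 1)))) (.br
  [1,9,17] (.br [1,17] (.br [17] (.br [1,6,17] (.rw [6,9] 1 2 1) (.br [6] (.cl [17] 0 2 1) (.br
  [5] (.rw [17] 0 1 2) (.br [1,6] (.fc [1,6,17] 1 2 0 2) (.br [5,17] (.br [5,6] (.fc [5] 0 2 2 0)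
  (.fc [1,17] 1 2 1 0)) (.cl [5] 1 2 2)))))) (.fc [2,13] 1 2 1 0)) (.cl [9] 1 2 2)) (.fc [6,9] 1 2
  0 1))) (.cl [2] 0 2 1))) (.br [9,17] (.br [2] (.br [2,6] (.cl [2,6] 0 1 1) (.br [10] (.rw [] 0 2
  1) (.br [17] (.cl [] 0 2 2) (.br [2,17] (.fc [2,6] 1 2 0 1) (.br [2,10] (.br [2,7] (.cl [2] 2 0
  1) (.fc [2] 1 2 2 1)) (.rw [10] 0 2 1)))))) (.cl [2] 0 1 1)) (.rw [9] 2 1 2))) (.rw [9] 0 2 0))
  (.cl [9] 2 0 0)))

def tree4 : Tr :=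
  (.br [1,9] (.br [3] (.br [9] (.cl [] 1 0 0) (.br [14] (.rw [] 1 0 2) (.br [3,9] (.br [3,14] (.br
  [2,3] (.rw [3] 0 2 0) (.br [1,3] (.rw [3] 0 1 0) (.br [9,14] (.fc [2,3] 0 2 1 2) (.br [1,9,14]
  (.br [1,14] (.br [1,1,14] (.cl [1,9] 2 1 2) (.br [1] (.fc [9] 0 2 0 2) (.fc [1,9] 0 2 0 2)))
  (.rw [14] 0 1 0)) (.fc [3,9] 1 2 1 0))))) (.rw [14] 1 0 2)) (.cl [9] 1 0 0)))) (.br [2] (.br [9]
  (.rw [] 0 2 0) (.br [14] (.cl [] 0 1 2) (.br [1,14] (.br [2,9] (.br [2,14] (.br [9,14] (.br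
  [2,3] (.cl [2] 1 0 0) (.fc [2,3] 1 2 1 0)) (.fc [1,14] 0 2 2 1)) (.cl [14] 0 1 2)) (.rw [9] 0 2
  0)) (.rw [3] 2 0 1)))) (.br [9] (.br [6] (.cl [] 2 0 0) (.br [1] (.rw [1] 0 2 0) (.br [9,16]
  (.cl [9] 0 2 1) (.br [9,13] (.cl [9] 0 1 1) (.br [1,13] (.br [1,16] (.br [1,9,17] (.br [1,17]
  (.fc [9,13] 1 2 1 0) (.br [6,9] (.fc [9,9] 0 1 0 2) (.br [17] (.br [13] (.br [2,9,16] (.br
  [2,16] (.br [2,13] (.fc [2] 0 1 1 2) (.br [16] (.fc [6] 1 2 0 2) (.br [9,14] (.cl [2,16] 1 0 0)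
  (.br [14] (.fc [2] 0 2 1 2) (.br [3,13] (.br [2,3] (.br [3,9] (.br [1,14] (.br [3,14] (.br [1,3]
  (.fc [9,13] 0 2 0 2) (.br [1,14,14] (.br [3,3] (.fc [3] 0 1 2 0) (.br [1,3,14] (.rw [1,14] 1 0
  2) (.fc [3,9] 0 2 0 2))) (.fc [3,14] 1 2 1 0))) (.rw [14] 1 0 2)) (.rw [16] 1 0 1)) (.fc [9] 1 2
  0 1)) (.rw [2] 1 0 1)) (.fc [13] 0 1 2 0)))))) (.fc [9] 1 2 1 0)) (.rw [6,9] 1 0 2)) (.rw [13] 2
  0 1)) (.cl [17] 0 2 1)))) (.br [6,9] (.br [1,6] (.fc [9,16] 1 2 2 1) (.br [16] (.br [2,16] (.fc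
  [6] 1 2 0 2) (.br [1,14] (.fc [1] 0 1 2 1) (.br [14] (.br [9,14] (.br [14,16] (.br [3,14] (.cl
  [14] 1 0 0) (.br [1,14,14] (.fc [1,14] 0 1 2 1) (.cl [14,14] 0 1 1))) (.fc [16] 0 1 2 0)) (.fc
  [9] 1 2 1 2)) (.rw [14] 2 0 2)))) (.fc [1,16] 0 2 2 1))) (.rw [6,9] 1 0 1))) (.cl [1] 0 2 1))
  (.cl [1] 0 1 1)))))) (.br [6,9] (.br [3,9] (.br [1,14] (.br [14] (.br [2,16] (.br [2,9] (.br
  [2,13] (.br [9,14] (.rw [14] 0 1 0) (.br [2,3] (.br [1,9,14] (.br [2,9,16] (.br [1,3,14] (.cl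
  [1,14] 1 0 0) (.br [2,6,16] (.rw [6,9] 1 1 2) (.br [2,2,16] (.rw [2,16] 0 2 0) (.br [1,3] (.fc
  [1,3,14] 1 2 2 0) (.br [2,6] (.fc [2,6,16] 1 2 0 1) (.br [3,3] (.br [2,4] (.br [3,14] (.fc [3] 0
  1 2 0) (.br [2,14] (.fc [2] 1 2 1 2) (.fc [14] 0 1 2 0))) (.fc [2,16] 0 2 2 1)) (.fc [3,9] 0 2 0
  2))))))) (.fc [2,9] 0 2 1 2)) (.fc [3,9] 1 2 1 0)) (.fc [2,13] 1 2 1 2))) (.cl [2] 0 1 1)) (.rw
  [9] 0 2 0)) (.cl [2] 0 2 1)) (.fc [] 0 1 2 0)) (.rw [3] 2 0 1)) (.cl [3] 2 0 0)) (.cl [9] 2 0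
  0))))) (.br [1] (.br [9] (.rw [] 0 1 0) (.rw [9] 0 1 0)) (.rw [1] 0 1 0)))

def tree5 : Tr :=
  (.br [7] (.br [13] (.cl [] 2 1 1) (.br [17] (.rw [] 2 1 2) (.br [1,13] (.br [5,13] (.br [7,13]
  (.br [3,13] (.br [7,17] (.br [5,7] (.rw [7] 1 2 1) (.br [3,7] (.rw [7] 1 0 1) (.br [13,17] (.fc
  [5,7] 0 1 2 0) (.br [1,13,17] (.br [5] (.br [2,13,13] (.br [1,17] (.br [2,13] (.br [1,1,17] (.rw
  [1,13] 2 0 2) (.br [9,13] (.cl [1,13] 0 2 2) (.br [1,5] (.cl [5] 0 1 1) (.br [2,3,13] (.cl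
  [3,13] 0 2 2) (.br [1] (.fc [13] 1 2 1 0) (.br [3] (.fc [13] 0 1 2 1) (.br [1,3] (.br [1,1] (.br
  [9] (.br [3,3] (.br [1,9] (.fc [1] 0 1 1 0) (.br [3,9] (.fc [3] 0 1 1 0) (.fc [9] 0 1 1 0)))
  (.fc [3,13] 0 1 2 1)) (.fc [1,17] 1 2 0 2)) (.fc [1,13] 1 2 1 0)) (.fc [1,13] 0 1 2 1))))))))
  (.cl [13] 0 2 2)) (.rw [13] 2 0 2)) (.fc [7,13] 0 2 1 0)) (.fc [5,13] 0 1 2 1)) (.fc [5,13] 0 1
  2 0))))) (.rw [17] 2 1 2)) (.rw [13] 1 0 1)) (.cl [13] 2 1 1)) (.rw [13] 1 2 1)) (.cl [13] 0 1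
  1)))) (.br [5] (.br [13] (.rw [] 1 2 1) (.br [17] (.cl [] 1 2 2) (.br [5,13] (.br [2,13] (.br
  [5,17] (.br [5,7] (.cl [5] 2 1 1) (.br [13,17] (.fc [5,7] 0 2 1 0) (.fc [2,13] 0 1 0 2))) (.cl
  [17] 1 2 2)) (.rw [13] 0 2 1)) (.rw [13] 1 2 1)))) (.br [17] (.br [6] (.rw [] 2 0 2) (.br [2]
  (.cl [] 0 2 2) (.br [9] (.br [1,17] (.fc [6] 1 2 0 1) (.br [2,13] (.fc [2] 0 1 1 2) (.br [13]
  (.br [2,7] (.br [2,3] (.br [2,17] (.br [9,17] (.rw [17] 0 2 0) (.br [9,13] (.br [13,17] (.br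
  [1,13] (.rw [13] 0 1 0) (.br [1,13,17] (.fc [1,17] 1 2 0 1) (.rw [1,13] 2 1 2))) (.fc [17] 0 1 1
  0)) (.fc [9] 1 2 2 1))) (.br [2,13,17] (.br [2,2,13] (.br [9,17] (.br [2,9] (.rw [2,3] 2 0 2)
  (.br [2,9,13] (.fc [2,13] 0 2 2 0) (.cl [2,9] 0 1 1))) (.fc [17] 0 1 2 0)) (.fc [2,7] 0 2 1 0))
  (.rw [17,17] 1 0 2))) (.rw [2] 1 0 1)) (.rw [7] 0 2 0)) (.cl [13] 2 1 0)))) (.br [6,9] (.br
  [1,17] (.br [2,16] (.br [3,9] (.br [2,9] (.br [2,13] (.br [9,17] (.rw [17] 0 1 0) (.br [2,6]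
  (.br [1,9,17] (.br [2,9,13] (.br [1,6,17] (.rw [6,9] 1 2 1) (.br [2,3,13] (.cl [2,13] 1 0 0)
  (.br [2,2,13] (.rw [2,13] 0 2 0) (.br [1,6] (.fc [1,6,17] 1 2 0 2) (.br [2,3] (.fc [2,3,13] 1 2
  1 0) (.br [6,6] (.br [2,7] (.br [6,17] (.fc [6] 0 2 2 0) (.br [2,17] (.fc [2] 1 2 2 1) (.fc [17]
  0 2 2 0))) (.fc [2,13] 0 1 2 1)) (.fc [6,9] 0 1 0 2))))))) (.fc [2,9] 0 1 1 2)) (.fc [6,9] 1 2 0
  1)) (.fc [2,16] 1 2 2 1))) (.cl [2] 0 1 1)) (.rw [9] 0 2 0)) (.cl [9] 1 0 0)) (.rw [6] 1 0 2))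
  (.rw [6] 1 0 1)) (.cl [6] 1 0 0))))) (.br [7,17] (.br [5,17] (.br [1,17] (.br [0,17] (.br [2,13]
  (.br [13] (.br [5,7] (.br [13,17] (.rw [13] 2 0 2) (.br [2,13,17] (.br [1,17,17] (.br [2,7,13]
  (.cl [7,17] 1 0 0) (.br [1,5,17] (.rw [5,17] 0 1 0) (.br [2,7] (.fc [2,7,13] 1 2 1 0) (.br [5,6]
  (.fc [1,5,17] 0 1 2 1) (.br [7,7] (.br [5,5] (.br [7,13] (.fc [7] 1 2 2 1) (.br [5,13] (.fc [5]
  1 2 2 1) (.fc [13] 1 2 2 1))) (.fc [5,17] 0 2 1 2)) (.fc [7,17] 1 2 0 2)))))) (.fc [5,17] 0 1 2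
  0)) (.fc [7,17] 0 2 1 0))) (.fc [0,17] 0 1 1 0)) (.fc [] 1 2 2 1)) (.cl [17] 1 2 0)) (.rw [17] 0
  0 2)) (.rw [17] 0 1 2)) (.cl [17] 1 2 2)) (.rw [17] 2 1 2)))))

def tree6 : Tr :=
  (.br [3] (.br [15] (.cl [] 1 2 0) (.br [13] (.rw [] 1 0 1) (.br [9] (.cl [] 1 0 0) (.br [1,13]
  (.br [3,13] (.br [3,9] (.br [1,3] (.cl [3] 0 1 1) (.br [9,13] (.fc [1,3] 0 2 2 1) (.br [1] (.br
  [1,15] (.fc [13] 1 2 1 2) (.br [1,14] (.fc [9] 0 2 0 2) (.br [8] (.br [1,8] (.br [3,8] (.br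
  [8,11] (.rw [8] 0 1 2) (.br [1,8,15] (.fc [1,15] 1 2 1 2) (.rw [8,11] 1 0 2))) (.fc [3] 0 2 1
  2)) (.fc [1] 1 2 0 2)) (.cl [15] 0 2 1)))) (.fc [1,13] 0 1 2 1)))) (.cl [9] 1 0 0)) (.rw [13] 1
  0 1)) (.cl [13] 0 1 1))))) (.br [1] (.br [9] (.rw [] 0 1 0) (.br [13] (.cl [] 0 1 1) (.br [1,9]
  (.br [2,13] (.br [1,13] (.br [1,3] (.cl [1] 1 0 0) (.br [9,13] (.fc [1,3] 1 2 2 0) (.fc [2,13] 0
  2 1 2))) (.cl [13] 0 1 1)) (.rw [3] 2 0 2)) (.rw [9] 0 1 0)))) (.br [13] (.br [5] (.rw [] 1 2 1)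
  (.br [7] (.cl [] 2 1 1) (.br [0,13] (.br [11] (.fc [5] 1 2 0 2) (.br [13,15] (.cl [13] 0 2 0)
  (.br [15] (.fc [7] 0 2 1 2) (.br [1,15] (.br [7,15] (.br [3,15] (.br [2,15] (.br [3,7] (.br
  [7,7] (.br [7,13] (.fc [7] 1 2 0 1) (.br [3,13] (.br [2,3,13] (.rw [3,13] 0 2 1) (.br [1,3] (.fc
  [3] 0 1 1 2) (.br [3,3] (.fc [3] 1 2 0 1) (.br [2,13] (.fc [3] 1 2 2 1) (.br [1,14] (.br [3,9]
  (.br [3,14] (.br [1,3,15] (.br [2,3] (.br [1,3,14] (.br [1,15,15] (.rw [3,15] 0 1 2) (.br [3,8]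
  (.rw [1,15] 1 0 2) (.br [9,14] (.cl [2,3] 0 2 1) (.br [14] (.fc [3] 0 1 2 1) (.br [1,14,14] (.rw
  [1,14] 1 0 2) (.br [11,15] (.br [8] (.br [14,16] (.br [8,15] (.fc [15] 0 2 1 2) (.br [8,14] (.fc
  [14] 0 2 1 2) (.fc [8] 1 2 0 2))) (.fc [1,14] 0 1 2 1)) (.fc [1,15] 0 1 2 1)) (.fc [1,15] 0 2 0
  1))))))) (.fc [3,9] 0 2 0 2)) (.rw [2,13] 1 0 2)) (.fc [3,13] 1 2 1 2)) (.rw [3] 1 0 2)) (.rw
  [3] 0 1 0)) (.rw [1] 1 0 2)))))) (.fc [13] 1 2 0 1))) (.br [7,13] (.br [3,13] (.fc [13,15] 0 2 2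
  0) (.br [2,13] (.fc [7] 0 1 1 0) (.br [2,13,13] (.br [1,3] (.br [9,13] (.br [2,3,13] (.br [3,9]
  (.cl [1,3] 0 2 2) (.br [2,9,13] (.fc [2,13] 0 1 1 0) (.rw [3,9] 2 0 2))) (.fc [3,7] 0 2 1 0))
  (.fc [13] 0 1 2 0)) (.cl [3] 0 1 1)) (.cl [13,13] 0 1 2)))) (.cl [7] 2 1 1))) (.fc [7,15] 0 2 1
  0)) (.rw [15] 0 2 0)) (.rw [15] 1 0 1)) (.cl [15] 2 1 1)) (.cl [11] 1 0 0))))) (.br [11] (.br
  [15] (.br [1,15] (.fc [1] 0 2 0 1) (.br [8] (.cl [] 2 0 2) (.br [8,15] (.br [11,15] (.cl [15] 2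
  0 2) (.br [13,15] (.br [11,13] (.br [3,13] (.cl [13] 1 2 0) (.br [1,13,15] (.fc [1,15] 1 2 2 1)
  (.cl [13,13] 2 1 2))) (.fc [11] 1 2 0 1)) (.fc [15] 0 1 1 2))) (.rw [8] 2 2 0)))) (.cl [15] 1 2
  2)) (.rw [11] 2 1 2))))) (.br [1,13] (.br [1,15] (.br [1,17] (.br [3,13] (.br [2,13] (.br [9]
  (.br [1,3] (.br [9,13] (.rw [9] 1 2 1) (.br [1,13,17] (.br [2,13,13] (.br [1,1,17] (.rw [1,13] 2
  0 2) (.br [2,3,13] (.rw [2,13] 1 0 1) (.br [1,5] (.fc [1,1,17] 0 2 0 1) (.br [3,7] (.fc [2,3,13]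
  0 1 0 2) (.br [1,1] (.br [3,3] (.br [1,9] (.fc [1] 0 1 1 0) (.br [3,9] (.fc [3] 0 1 1 0) (.fc
  [9] 0 1 1 0))) (.fc [3,13] 0 1 2 1)) (.fc [1,13] 1 2 1 0)))))) (.fc [3,13] 1 2 2 0)) (.fc [1,13]
  0 2 2 1))) (.fc [1,15] 0 2 2 0)) (.fc [] 0 1 1 0)) (.cl [13] 0 1 2)) (.rw [13] 1 0 1)) (.rw [13]
  2 0 1)) (.rw [13] 2 2 1)) (.cl [13] 0 2 1)))))

section Sound

variable {A : Type*} [AddCommGroup A]

/-- Evaluation of a coordinate vector. -/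
def ev (e : Fin 3 → Fin 3 → A) (m : V4) : A :=
  m.1 • e 0 0 + m.2.1 • e 0 1 + m.2.2.1 • e 1 0 + m.2.2.2 • e 1 1

theorem ev_add (e : Fin 3 → Fin 3 → A) (m n : V4) : ev e (m + n) = ev e m + ev e n := by
  simp only [ev, Prod.fst_add, Prod.snd_add, add_smul]
  abel

theorem ev_sub (e : Fin 3 → Fin 3 → A) (m n : V4) : ev e (m - n) = ev e m - ev e n := by
  simp only [ev, Prod.fst_sub, Prod.snd_sub, sub_smul]
  abel

theorem ev_zero (e : Fin 3 → Fin 3 → A) : ev e 0 = 0 := by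
  simp [ev]

theorem ev_vec (e : Fin 3 → Fin 3 → A) (hr : ∀ i, e i 0 + e i 1 + e i 2 = 0)
    (hc : ∀ j, e 0 j + e 1 j + e 2 j = 0) (i j : Fin 3) : ev e (vec i j) = e i j := by
  have r0 := hr 0
  have r1 := hr 1
  have r2 := hr 2
  have c0 := hc 0
  have c1 := hc 1
  have c2 := hc 2
  have h02 : e 0 2 = -e 0 0 - e 0 1 := by
    rw [eq_comm, ← sub_eq_zero, ← neg_eq_zero, ← r0]; abel
  have h12 : e 1 2 = -e 1 0 - e 1 1 := by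
    rw [eq_comm, ← sub_eq_zero, ← neg_eq_zero, ← r1]; abel
  have h20 : e 2 0 = -e 0 0 - e 1 0 := by
    rw [eq_comm, ← sub_eq_zero, ← neg_eq_zero, ← c0]; abel
  have h21 : e 2 1 = -e 0 1 - e 1 1 := by
    rw [eq_comm, ← sub_eq_zero, ← neg_eq_zero, ← c1]; abel
  have h22 : e 2 2 = e 0 0 + e 0 1 + e 1 0 + e 1 1 := by
    rw [h20, h21] at r2
    rw [eq_comm, ← sub_eq_zero, ← neg_eq_zero, ← r2]; abel
  fin_cases i <;> fin_cases j <;> simp [ev, vec, h02, h12, h20, h21, h22] <;> abel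

theorem goodN_mono {f : A → Bool} {e : Fin 3 → Fin 3 → A} {n : ℕ} {x : A}
    (h : GoodN n f e x) : GoodAt f e x := by
  induction n with
  | zero => exact h
  | succ n ih => exact ih h.1

theorem goodN_path {f : A → Bool} {e : Fin 3 → Fin 3 → A}
    (hr : ∀ i, e i 0 + e i 1 + e i 2 = 0) (hc : ∀ j, e 0 j + e 1 j + e 2 j = 0)
    (p : List ℕ) : ∀ (n : ℕ) (x : A), GoodN (n + p.length) f e x →
      GoodN n f e (x + ev e (pt p)) := by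
  induction p with
  | nil => intro n x h; simpa [pt, ev_zero] using h
  | cons d p ih =>
    intro n x h
    have h' : GoodN ((n + 1) + p.length) f e x := by
      have : n + (d :: p).length = (n + 1) + p.length := by simp; omega
      rwa [this] at h
    have h2 := ih (n + 1) x h'
    have h3 := h2.2 (ci d) (cj d)
    unfold pt stp
    split_ifs
    · rw [ev_add, ev_vec e hr hc, ← add_assoc]; exact h3.1
    · rw [ev_sub, ev_vec e hr hc, ← add_sub_assoc]; exact h3.2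

theorem lk_sound {F : V4 → Bool} {l : List (V4 × Bool)} (hl : ∀ q ∈ l, F q.1 = q.2) {x : V4}
    {b : Bool} (h : lk l x = some b) : F x = b := by
  induction l with
  | nil => simp [lk] at h
  | cons q l ih =>
    obtain ⟨y, c⟩ := q
    simp only [lk] at h
    split_ifs at h with hxy
    · subst hxy
      have := hl (x, c) (by simp)
      simpa using this.trans (Option.some.inj h)
    · exact ih (fun q hq => hl q (by simp [hq])) h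

theorem goodN_le {f : A → Bool} {e : Fin 3 → Fin 3 → A} {x : A} {n k : ℕ}
    (h : GoodN (n + k) f e x) : GoodN n f e x := by
  induction k with
  | zero => exact h
  | succ k ih => exact ih h.1

theorem goodAt_path {f : A → Bool} {e : Fin 3 → Fin 3 → A} {x : A}
    (hr : ∀ i, e i 0 + e i 1 + e i 2 = 0) (hc : ∀ j, e 0 j + e 1 j + e 2 j = 0)
    (h : GoodN 3 f e x) (p : List ℕ) (hp : p.length ≤ 3) :
    GoodAt f e (x + ev e (pt p)) := by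
  obtain ⟨k, hk⟩ := Nat.exists_eq_add_of_le hp
  have h1 : GoodN (0 + p.length) f e x := by
    have : (3 : ℕ) = (0 + p.length) + k := by omega
    rw [this] at h
    exact goodN_le h
  exact goodN_path hr hc p 0 x h1

theorem chk_sound {f : A → Bool} {e : Fin 3 → Fin 3 → A} {x : A}
    (hr : ∀ i, e i 0 + e i 1 + e i 2 = 0) (hc : ∀ j, e 0 j + e 1 j + e 2 j = 0)
    (h : GoodN 3 f e x) (t : Tr) : ∀ l : List (V4 × Bool),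
      (∀ q ∈ l, f (x + ev e q.1) = q.2) → chk t l = true → False := by
  induction t with
  | rw p i j j' =>
    intro l hl hk
    simp only [chk, Bool.and_eq_true, decide_eq_true_eq] at hk
    obtain ⟨⟨hp, hj⟩, hm⟩ := hk
    have g := goodAt_path hr hc h p hp
    have hF := @lk_sound (fun m => f (x + ev e m)) l hl
    split at hm
    · rename_i a b c ha hb hc'
      have h1 := hF ha
      have h2 := hF hb
      have h3 := hF hc'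
      simp only [ev_add, ev_sub, ev_vec e hr hc, ← add_assoc, ← add_sub_assoc] at h1 h2 h3
      simp only [Bool.and_eq_true, beq_iff_eq] at hm
      exact g.row i j j' hj ⟨by rw [h1, h2]; exact hm.1, by rw [h1, h3]; exact hm.2⟩
    · exact absurd hm (by simp)
  | cl p i i' j =>
    intro l hl hk
    simp only [chk, Bool.and_eq_true, decide_eq_true_eq] at hk
    obtain ⟨⟨hp, hj⟩, hm⟩ := hk
    have g := goodAt_path hr hc h p hp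
    have hF := @lk_sound (fun m => f (x + ev e m)) l hl
    split at hm
    · rename_i a b c ha hb hc'
      have h1 := hF ha
      have h2 := hF hb
      have h3 := hF hc'
      simp only [ev_add, ev_sub, ev_vec e hr hc, ← add_assoc, ← add_sub_assoc] at h1 h2 h3
      simp only [Bool.and_eq_true, beq_iff_eq] at hm
      exact g.col i i' j hj ⟨by rw [h1, h2]; exact hm.1, by rw [h1, h3]; exact hm.2⟩
    · exact absurd hm (by simp)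
  | fc p i i' j j' =>
    intro l hl hk
    simp only [chk, Bool.and_eq_true, decide_eq_true_eq] at hk
    obtain ⟨⟨⟨hp, hi⟩, hj⟩, hm⟩ := hk
    have g := goodAt_path hr hc h p hp
    have hF := @lk_sound (fun m => f (x + ev e m)) l hl
    split at hm
    · rename_i a b c d q ha hb hc' hd hq
      have h1 := hF ha
      have h2 := hF hb
      have h3 := hF hc'
      have h4 := hF hd
      have h5 := hF hq
      simp only [ev_add, ev_sub, ev_vec e hr hc, ← add_assoc, ← add_sub_assoc] at h1 h2 h3 h4 h5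
      simp only [Bool.and_eq_true, beq_iff_eq] at hm
      obtain ⟨⟨⟨k1, k2⟩, k3⟩, k4⟩ := hm
      refine g.face i i' j j' hi hj ⟨?_, ?_, ?_, ?_⟩
      · rw [h1, h2, k1]; simp
      · rw [h1, h3, k2]; simp
      · rw [h1, h4, k3]; simp
      · rw [h1, h5, k4]; simp
    · exact absurd hm (by simp)
  | br p t f' iht ihf =>
    intro l hl hk
    simp only [chk, Bool.and_eq_true] at hk
    cases hb : f (x + ev e (pt p)) with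
    | true =>
      exact iht _ (by
        intro q hq
        rcases List.mem_cons.mp hq with rfl | hq
        · exact hb
        · exact hl q hq) hk.1
    | false =>
      exact ihf _ (by
        intro q hq
        rcases List.mem_cons.mp hq with rfl | hq
        · exact hb
        · exact hl q hq) hk.2

end Sound


/-- The initial values of case 0. -/
def ini0 : List (V4 × Bool) :=
  [(pt [], true), (pt [9, 9], false), (pt [10, 10], false), (pt [11, 11], false)]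

theorem chk0 : chk tree0 ini0 = true := by decide +kernel

/-- The initial values of case 1. -/
def ini1 : List (V4 × Bool) :=
  [(pt [], true), (pt [9, 9], false), (pt [10, 10], false), (pt [2, 2], false)]

theorem chk1 : chk tree1 ini1 = true := by decide +kernel

/-- The initial values of case 2. -/
def ini2 : List (V4 × Bool) :=
  [(pt [], true), (pt [9, 9], false), (pt [10, 10], false), (pt [14, 14], false)]

theorem chk2 : chk tree2 ini2 = true := by decide +kernel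

/-- The initial values of case 3. -/
def ini3 : List (V4 × Bool) :=
  [(pt [], true), (pt [9, 9], false), (pt [10, 10], false), (pt [5, 5], false)]

theorem chk3 : chk tree3 ini3 = true := by decide +kernel

/-- The initial values of case 4. -/
def ini4 : List (V4 × Bool) :=
  [(pt [], true), (pt [9, 9], false), (pt [1, 1], false), (pt [14, 14], false)]

theorem chk4 : chk tree4 ini4 = true := by decide +kernel

/-- The initial values of case 5. -/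
def ini5 : List (V4 × Bool) :=
  [(pt [], true), (pt [9, 9], false), (pt [13, 13], false), (pt [17, 17], false)]

theorem chk5 : chk tree5 ini5 = true := by decide +kernel

/-- The initial values of case 6. -/
def ini6 : List (V4 × Bool) :=
  [(pt [], true), (pt [9, 9], false), (pt [13, 13], false), (pt [8, 8], false)]

theorem chk6 : chk tree6 ini6 = true := by decide +kernel

end Pool.Agent.H58.ER
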