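import Pool.Agent.H58.ER.Cert

/-!
Symmetries of the local conditions and the bound for the number of nonconstant chains.
-/

set_option autoImplicit false

namespace Pool.Agent.H58.ER

variable {A : Type*} [AddCommGroup A]

/-- `v` or `-v`. -/
def sg (s : Bool) (v : A) : A := if s then v else -v

/-- The cell `(i, j)` with sign `s` is bad at `x`. -/
def Bad (f : A → Bool) (e : Fin 3 → Fin 3 → A) (x : A) (i j : Fin 3) (s : Bool) : Prop :=
  f (x + (sg s (e i j) + sg s (e i j))) ≠ f x

/-- The permutations of `Fin 3`. -/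
def pm : Fin 6 → Fin 3 → Fin 3
  | 0 => ![0, 1, 2]
  | 1 => ![0, 2, 1]
  | 2 => ![1, 0, 2]
  | 3 => ![1, 2, 0]
  | 4 => ![2, 0, 1]
  | 5 => ![2, 1, 0]

theorem pm_ne : ∀ a : Fin 6, ∀ i j : Fin 3, i ≠ j → pm a i ≠ pm a j := by decide

/-- The symmetries of arrays. -/
def act (t g : Bool) (a b : Fin 6) (e : Fin 3 → Fin 3 → A) : Fin 3 → Fin 3 → A :=
  fun i j => sg g (bif t then e (pm a j) (pm b i) else e (pm a i) (pm b j))

theorem act_row (t g : Bool) (a b : Fin 6) (e : Fin 3 → Fin 3 → A)
    (hr : ∀ i, e i 0 + e i 1 + e i 2 = 0) (hc : ∀ j, e 0 j + e 1 j + e 2 j = 0) (i : Fin 3) :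
    act t g a b e i 0 + act t g a b e i 1 + act t g a b e i 2 = 0 := by
  cases t
  · have h := hr (pm a i)
    have key : e (pm a i) (pm b 0) + e (pm a i) (pm b 1) + e (pm a i) (pm b 2) = 0 := by
      rw [← h]
      fin_cases b <;> simp [pm] <;> abel
    cases g
    · simp only [act, sg, cond_false]
      rw [← neg_eq_zero, ← key]
      simp
      abel
    · simpa [act, sg] using key
  · have h := hc (pm b i)
    have key : e (pm a 0) (pm b i) + e (pm a 1) (pm b i) + e (pm a 2) (pm b i) = 0 := by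
      rw [← h]
      fin_cases a <;> simp [pm] <;> abel
    cases g
    · simp only [act, sg, cond_true]
      rw [← neg_eq_zero, ← key]
      simp
      abel
    · simpa [act, sg] using key

theorem act_col (t g : Bool) (a b : Fin 6) (e : Fin 3 → Fin 3 → A)
    (hr : ∀ i, e i 0 + e i 1 + e i 2 = 0) (hc : ∀ j, e 0 j + e 1 j + e 2 j = 0) (j : Fin 3) :
    act t g a b e 0 j + act t g a b e 1 j + act t g a b e 2 j = 0 := by
  cases t
  · have h := hc (pm b j)
    have key : e (pm a 0) (pm b j) + e (pm a 1) (pm b j) + e (pm a 2) (pm b j) = 0 := by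
      rw [← h]
      fin_cases a <;> simp [pm] <;> abel
    cases g
    · simp only [act, sg, cond_false]
      rw [← neg_eq_zero, ← key]
      simp
      abel
    · simpa [act, sg] using key
  · have h := hr (pm a j)
    have key : e (pm a j) (pm b 0) + e (pm a j) (pm b 1) + e (pm a j) (pm b 2) = 0 := by
      rw [← h]
      fin_cases b <;> simp [pm] <;> abel
    cases g
    · simp only [act, sg, cond_true]
      rw [← neg_eq_zero, ← key]
      simp
      abel
    · simpa [act, sg] using key

theorem goodAt_act {f : A → Bool} {e : Fin 3 → Fin 3 → A} {x : A} (h : GoodAt f e x)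
    (t g : Bool) (a b : Fin 6) : GoodAt f (act t g a b e) x := by
  cases t <;> cases g
  · refine ⟨?_, ?_, ?_⟩
    · intro i j j' hj hh
      simp only [act, sg, cond_false, Bool.false_eq_true, if_false] at hh
      refine h.row (pm a i) (pm b j') (pm b j) (pm_ne b _ _ hj.symm) ⟨?_, ?_⟩
      · simpa using hh.2
      · simpa [sub_eq_add_neg] using hh.1
    · intro i i' j hi hh
      simp only [act, sg, cond_false, Bool.false_eq_true, if_false] at hh
      refine h.col (pm a i') (pm a i) (pm b j) (pm_ne a _ _ hi.symm) ⟨?_, ?_⟩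
      · simpa using hh.2
      · simpa [sub_eq_add_neg] using hh.1
    · intro i i' j j' hi hj hh
      simp only [act, sg, cond_false, Bool.false_eq_true, if_false] at hh
      refine h.face (pm a i) (pm a i') (pm b j') (pm b j) (pm_ne a _ _ hi)
        (pm_ne b _ _ hj.symm) ⟨?_, ?_, ?_, ?_⟩
      · simpa using hh.2.1
      · simpa [sub_eq_add_neg] using hh.1
      · simpa [sub_eq_add_neg] using hh.2.2.2
      · simpa using hh.2.2.1
  · refine ⟨?_, ?_, ?_⟩
    · intro i j j' hj hh
      simp only [act, sg, cond_false, if_true] at hh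
      exact h.row (pm a i) (pm b j) (pm b j') (pm_ne b _ _ hj) hh
    · intro i i' j hi hh
      simp only [act, sg, cond_false, if_true] at hh
      exact h.col (pm a i) (pm a i') (pm b j) (pm_ne a _ _ hi) hh
    · intro i i' j j' hi hj hh
      simp only [act, sg, cond_false, if_true] at hh
      exact h.face (pm a i) (pm a i') (pm b j) (pm b j') (pm_ne a _ _ hi) (pm_ne b _ _ hj) hh
  · refine ⟨?_, ?_, ?_⟩
    · intro i j j' hj hh
      simp only [act, sg, cond_true, Bool.false_eq_true, if_false] at hh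
      refine h.col (pm a j') (pm a j) (pm b i) (pm_ne a _ _ hj.symm) ⟨?_, ?_⟩
      · simpa using hh.2
      · simpa [sub_eq_add_neg] using hh.1
    · intro i i' j hi hh
      simp only [act, sg, cond_true, Bool.false_eq_true, if_false] at hh
      refine h.row (pm a j) (pm b i') (pm b i) (pm_ne b _ _ hi.symm) ⟨?_, ?_⟩
      · simpa using hh.2
      · simpa [sub_eq_add_neg] using hh.1
    · intro i i' j j' hi hj hh
      simp only [act, sg, cond_true, Bool.false_eq_true, if_false] at hh
      refine h.face (pm a j) (pm a j') (pm b i') (pm b i) (pm_ne a _ _ hj)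
        (pm_ne b _ _ hi.symm) ⟨?_, ?_, ?_, ?_⟩
      · simpa using hh.2.2.1
      · simpa [sub_eq_add_neg] using hh.1
      · simpa [sub_eq_add_neg] using hh.2.2.2
      · simpa using hh.2.1
  · refine ⟨?_, ?_, ?_⟩
    · intro i j j' hj hh
      simp only [act, sg, cond_true, if_true] at hh
      exact h.col (pm a j) (pm a j') (pm b i) (pm_ne a _ _ hj) hh
    · intro i i' j hi hh
      simp only [act, sg, cond_true, if_true] at hh
      exact h.row (pm a j) (pm b i) (pm b i') (pm_ne b _ _ hi) hh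
    · intro i i' j j' hi hj hh
      simp only [act, sg, cond_true, if_true] at hh
      exact h.face (pm a j) (pm a j') (pm b i) (pm b i') (pm_ne a _ _ hj) (pm_ne b _ _ hi)
        ⟨hh.1, hh.2.2.1, hh.2.1, hh.2.2.2⟩

theorem goodN_act {f : A → Bool} {e : Fin 3 → Fin 3 → A} (t g : Bool) (a b : Fin 6) (n : ℕ) :
    ∀ x : A, GoodN n f e x → GoodN n f (act t g a b e) x := by
  induction n with
  | zero => intro x h; exact goodAt_act h t g a b
  | succ n ih =>
    intro x h
    refine ⟨ih x h.1, ?_⟩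
    intro i j
    cases t <;> cases g
    · have := h.2 (pm a i) (pm b j)
      refine ⟨ih _ ?_, ih _ ?_⟩
      · simpa [act, sg, sub_eq_add_neg] using this.2
      · simpa [act, sg, sub_eq_add_neg] using this.1
    · have := h.2 (pm a i) (pm b j)
      exact ⟨ih _ this.1, ih _ this.2⟩
    · have := h.2 (pm a j) (pm b i)
      refine ⟨ih _ ?_, ih _ ?_⟩
      · simpa [act, sg, sub_eq_add_neg] using this.2
      · simpa [act, sg, sub_eq_add_neg] using this.1
    · have := h.2 (pm a j) (pm b i)
      exact ⟨ih _ this.1, ih _ this.2⟩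

theorem goodAt_compl {f : A → Bool} {e : Fin 3 → Fin 3 → A} {x : A} (h : GoodAt f e x) :
    GoodAt (fun y => !f y) e x := by
  refine ⟨?_, ?_, ?_⟩
  · intro i j j' hj hh
    exact h.row i j j' hj (by simpa using hh)
  · intro i i' j hi hh
    exact h.col i i' j hi (by simpa using hh)
  · intro i i' j j' hi hj hh
    exact h.face i i' j j' hi hj (by simpa using hh)

theorem goodN_compl {f : A → Bool} {e : Fin 3 → Fin 3 → A} (n : ℕ) :
    ∀ x : A, GoodN n f e x → GoodN n (fun y => !f y) e x := by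
  induction n with
  | zero => intro x h; exact goodAt_compl h
  | succ n ih =>
    intro x h
    exact ⟨ih x h.1, fun i j => ⟨ih _ (h.2 i j).1, ih _ (h.2 i j).2⟩⟩

/-! ### The seven base cases -/

/-- Signed cells of the seven base cases. -/
def rep : Fin 7 → Fin 3 → Fin 3 × Fin 3 × Bool
  | 0 => ![(0, 0, false), (0, 1, false), (0, 2, false)]
  | 1 => ![(0, 0, false), (0, 1, false), (0, 2, true)]
  | 2 => ![(0, 0, false), (0, 1, false), (1, 2, false)]
  | 3 => ![(0, 0, false), (0, 1, false), (1, 2, true)]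
  | 4 => ![(0, 0, false), (0, 1, true), (1, 2, false)]
  | 5 => ![(0, 0, false), (1, 1, false), (2, 2, false)]
  | 6 => ![(0, 0, false), (1, 1, false), (2, 2, true)]

/-- Number of a step. -/
def num (c : Fin 3 × Fin 3 × Bool) : ℕ :=
  3 * c.1.val + c.2.1.val + (bif c.2.2 then 0 else 9)

/-- Trees. -/
def tr : Fin 7 → Tr
  | 0 => tree0
  | 1 => tree1
  | 2 => tree2
  | 3 => tree3
  | 4 => tree4
  | 5 => tree5
  | 6 => tree6

/-- Initial values. -/
def ini (k : Fin 7) : List (V4 × Bool) :=
  [(pt [], true), (pt [num (rep k 0), num (rep k 0)], false),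
    (pt [num (rep k 1), num (rep k 1)], false), (pt [num (rep k 2), num (rep k 2)], false)]

theorem chk_all : ∀ k : Fin 7, chk (tr k) (ini k) = true := by
  intro k
  fin_cases k
  · exact chk0
  · exact chk1
  · exact chk2
  · exact chk3
  · exact chk4
  · exact chk5
  · exact chk6

theorem ev_num (e : Fin 3 → Fin 3 → A) (hr : ∀ i, e i 0 + e i 1 + e i 2 = 0)
    (hc : ∀ j, e 0 j + e 1 j + e 2 j = 0) (c : Fin 3 × Fin 3 × Bool) :
    ev e (pt [num c, num c]) = sg c.2.2 (e c.1 c.2.1) + sg c.2.2 (e c.1 c.2.1) := by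
  obtain ⟨i, j, s⟩ := c
  have key : ∀ (i j : Fin 3) (s : Bool), pt [num (i, j, s), num (i, j, s)] =
      bif s then vec i j + vec i j else (0 - vec i j - vec i j) := by decide
  rw [key]
  cases s
  · simp only [cond_false, ev_sub, ev_vec e hr hc, ev_zero, sg, Bool.false_eq_true, if_false]
    abel
  · simp only [cond_true, ev_add, ev_vec e hr hc, sg, if_true]

theorem base_true {f : A → Bool} {e : Fin 3 → Fin 3 → A} {x : A}
    (hr : ∀ i, e i 0 + e i 1 + e i 2 = 0) (hc : ∀ j, e 0 j + e 1 j + e 2 j = 0)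
    (h : GoodN 3 f e x) (hx : f x = true) (k : Fin 7) :
    ¬ ∀ r : Fin 3, Bad f e x (rep k r).1 (rep k r).2.1 (rep k r).2.2 := by
  intro hb
  refine chk_sound hr hc h (tr k) (ini k) ?_ (chk_all k)
  have hb' : ∀ r : Fin 3, f (x + ev e (pt [num (rep k r), num (rep k r)])) = false := by
    intro r
    rw [ev_num e hr hc]
    have := hb r
    unfold Bad at this
    rw [hx] at this
    simpa using this
  intro q hq
  simp only [ini, List.mem_cons, List.not_mem_nil, or_false] at hq
  rcases hq with rfl | rfl | rfl | rfl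
  · simpa [pt, ev_zero] using hx
  · exact hb' 0
  · exact hb' 1
  · exact hb' 2

theorem base {f : A → Bool} {e : Fin 3 → Fin 3 → A} {x : A}
    (hr : ∀ i, e i 0 + e i 1 + e i 2 = 0) (hc : ∀ j, e 0 j + e 1 j + e 2 j = 0)
    (h : GoodN 3 f e x) (k : Fin 7) :
    ¬ ∀ r : Fin 3, Bad f e x (rep k r).1 (rep k r).2.1 (rep k r).2.2 := by
  cases hx : f x with
  | true => exact base_true hr hc h hx k
  | false =>
    intro hb
    refine base_true hr hc (goodN_compl 3 x h) (f := fun y => !f y) (by simp [hx]) k ?_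
    intro r
    have := hb r
    unfold Bad at this ⊢
    simpa using this

/-! ### All cases -/

/-- Witness table. -/
def wit : List ℕ :=
  [108, 252, 258, 234, 270, 222, 216, 72, 396, 540, 684, 660, 696, 648, 504, 360, 397, 541, 685,
  661, 697, 649, 505, 361, 402, 690, 546, 672, 708, 510, 654, 366, 416, 704, 716, 524, 560, 680,
  668, 380, 756, 900, 907, 885, 921, 871, 864, 720, 403, 691, 547, 673, 709, 511, 655, 367, 757,
  901, 906, 887, 923, 870, 865, 721, 418, 706, 718, 526, 562, 682, 670, 382, 414, 702, 714, 522,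
  558, 678, 666, 378, 404, 692, 548, 674, 710, 512, 656, 368, 758, 902, 909, 883, 919, 873, 866,
  722, 398, 542, 686, 662, 698, 650, 506, 362, 110, 254, 260, 236, 272, 224, 218, 74, 399, 543,
  687, 663, 699, 651, 507, 363, 759, 903, 908, 886, 922, 872, 867, 723, 405, 693, 549, 675, 711,
  513, 657, 369, 419, 707, 719, 527, 563, 683, 671, 383, 415, 703, 715, 523, 559, 679, 667, 379,
  760, 904, 911, 882, 918, 875, 868, 724, 406, 694, 550, 676, 712, 514, 658, 370, 761, 905, 910,
  884, 920, 874, 869, 725, 417, 705, 717, 525, 561, 681, 669, 381, 407, 695, 551, 677, 713, 515,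
  659, 371, 400, 544, 688, 664, 700, 652, 508, 364, 401, 545, 689, 665, 701, 653, 509, 365, 112,
  256, 262, 238, 274, 226, 220, 76]

/-- Image of a signed cell under a symmetry. -/
def img (t g : Bool) (a b : Fin 6) (c : Fin 3 × Fin 3 × Bool) : Fin 3 × Fin 3 × Bool :=
  ((bif t then pm a c.2.1 else pm a c.1), (bif t then pm b c.1 else pm b c.2.1),
    (bif g then c.2.2 else !c.2.2))

theorem bad_img {f : A → Bool} {e : Fin 3 → Fin 3 → A} {x : A} (t g : Bool) (a b : Fin 6)
    (c : Fin 3 × Fin 3 × Bool)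
    (h : Bad f e x (img t g a b c).1 (img t g a b c).2.1 (img t g a b c).2.2) :
    Bad f (act t g a b e) x c.1 c.2.1 c.2.2 := by
  obtain ⟨i, j, s⟩ := c
  unfold Bad at *
  cases t <;> cases g <;> cases s <;> simpa [img, act, sg] using h

/-- Decoding of witnesses. -/
def dec6 (n : ℕ) : Fin 6 := ⟨n % 6, Nat.mod_lt _ (by norm_num)⟩

/-- Decoding of witnesses. -/
def dec7 (n : ℕ) : Fin 7 := ⟨n % 7, Nat.mod_lt _ (by norm_num)⟩

/-- Table index. -/
def tix (j : Fin 3 → Fin 3) (s : Fin 3 → Bool) : ℕ :=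
  ((((((j 0).val * 3 + (j 1).val) * 3 + (j 2).val) * 2 + (s 0).toNat) * 2 + (s 1).toNat) * 2
    + (s 2).toNat)

theorem table : ∀ (j0 j1 j2 : Fin 3) (s0 s1 s2 : Bool), ∀ r : Fin 3,
    (let w := wit.getD (tix ![j0, j1, j2] ![s0, s1, s2]) 0
     let c := img ((w / 72 % 2) == 1) ((w / 36 % 2) == 1) (dec6 (w / 6)) (dec6 w)
       (rep (dec7 (w / 144)) r)
     c.2.1 = ![j0, j1, j2] c.1 ∧ c.2.2 = ![s0, s1, s2] c.1) := by
  decide +kernel

theorem rows {f : A → Bool} {e : Fin 3 → Fin 3 → A} {x : A}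
    (hr : ∀ i, e i 0 + e i 1 + e i 2 = 0) (hc : ∀ j, e 0 j + e 1 j + e 2 j = 0)
    (h : GoodN 3 f e x) (j : Fin 3 → Fin 3) (s : Fin 3 → Bool) :
    ¬ ∀ i, Bad f e x i (j i) (s i) := by
  intro hb
  have hj : j = ![j 0, j 1, j 2] := by
    ext i; fin_cases i <;> rfl
  have hs : s = ![s 0, s 1, s 2] := by
    ext i; fin_cases i <;> rfl
  have ht := table (j 0) (j 1) (j 2) (s 0) (s 1) (s 2)
  rw [← hj, ← hs] at ht
  set w := wit.getD (tix j s) 0
  refine base (e := act ((w / 72 % 2) == 1) ((w / 36 % 2) == 1) (dec6 (w / 6)) (dec6 w) e)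
    (act_row _ _ _ _ e hr hc) (act_col _ _ _ _ e hr hc) (goodN_act _ _ _ _ 3 x h)
    (dec7 (w / 144)) ?_
  intro r
  apply bad_img
  obtain ⟨h1, h2⟩ := ht r
  rw [h1, h2]
  exact hb _

theorem cols {f : A → Bool} {e : Fin 3 → Fin 3 → A} {x : A}
    (hr : ∀ i, e i 0 + e i 1 + e i 2 = 0) (hc : ∀ j, e 0 j + e 1 j + e 2 j = 0)
    (h : GoodN 3 f e x) (i : Fin 3 → Fin 3) (s : Fin 3 → Bool) :
    ¬ ∀ j, Bad f e x (i j) j (s j) := by
  intro hb
  have h2 := goodN_act (e := e) true true 0 0 3 x h
  refine rows (act_row _ _ _ _ e hr hc) (act_col _ _ _ _ e hr hc) h2 i s ?_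
  intro j
  apply bad_img true true 0 0 (j, i j, s j)
  have hp : ∀ a : Fin 3, pm 0 a = a := by decide
  simpa [img, hp] using hb j

open Classical in
/-- At most four of the nine chains `x - 2 e i j, x, x + 2 e i j` are not constant. -/
theorem chain_bound {f : A → Bool} {e : Fin 3 → Fin 3 → A} {x : A}
    (hr : ∀ i, e i 0 + e i 1 + e i 2 = 0) (hc : ∀ j, e 0 j + e 1 j + e 2 j = 0)
    (h : GoodN 3 f e x) :
    ∑ i, ∑ j, (if f (x + (e i j + e i j)) ≠ f x ∨ f (x - (e i j + e i j)) ≠ f x then (1 : ℝ)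
      else 0) ≤ 4 := by
  have hrow : ∃ i0, ∀ j s, ¬ Bad f e x i0 j s := by
    by_contra hcon
    push Not at hcon
    choose j s hjs using hcon
    exact rows hr hc h j s hjs
  have hcol : ∃ j0, ∀ i s, ¬ Bad f e x i j0 s := by
    by_contra hcon
    push Not at hcon
    choose i s his using hcon
    exact cols hr hc h i s his
  obtain ⟨i0, hi0⟩ := hrow
  obtain ⟨j0, hj0⟩ := hcol
  have key : ∀ i j, (if f (x + (e i j + e i j)) ≠ f x ∨ f (x - (e i j + e i j)) ≠ f x
      then (1 : ℝ) else 0) ≤ if i ≠ i0 ∧ j ≠ j0 then 1 else 0 := by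
    intro i j
    split_ifs with h1 h2
    · exact le_rfl
    · exfalso
      rw [not_and_or, not_not, not_not] at h2
      have hb : ∃ s, Bad f e x i j s := by
        rcases h1 with h1 | h1
        · exact ⟨true, by simpa [Bad, sg] using h1⟩
        · refine ⟨false, ?_⟩
          have : x + (sg false (e i j) + sg false (e i j)) = x - (e i j + e i j) := by
            simp only [sg, Bool.false_eq_true, if_false]; abel
          unfold Bad
          rw [this]
          exact h1
      obtain ⟨s, hs⟩ := hb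
      rcases h2 with rfl | rfl
      · exact hi0 _ _ hs
      · exact hj0 _ _ hs
    · exact zero_le_one
    · exact le_rfl
  calc _ ≤ ∑ i, ∑ j, (if i ≠ i0 ∧ j ≠ j0 then (1 : ℝ) else 0) :=
        Finset.sum_le_sum fun i _ => Finset.sum_le_sum fun j _ => key i j
    _ ≤ 4 := by
        clear hi0 hj0 key
        simp only [Fin.sum_univ_three]
        fin_cases i0 <;> fin_cases j0 <;> norm_num [Fin.ext_iff]

end Pool.Agent.H58.ER
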