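import Pool.Agent.H58.ER.Mean
import Pool.Agent.H58.ER.Core

/-!
Pair probabilities of a stationary two-colouring of the plane and their inequalities.
-/

set_option autoImplicit false

namespace Pool.Agent.H58.ER

open Classical in
/-- The indicator of a proposition. -/
noncomputable def ind (p : Prop) : ℝ := if p then 1 else 0

theorem ind_eq (p : Prop) [Decidable p] : ind p = if p then 1 else 0 := by
  unfold ind
  split_ifs <;> rfl

theorem ind_nonneg (p : Prop) : 0 ≤ ind p := by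
  unfold ind
  split_ifs <;> simp

theorem ind_le_one (p : Prop) : ind p ≤ 1 := by
  unfold ind
  split_ifs <;> simp

theorem ind_true {p : Prop} (h : p) : ind p = 1 := if_pos h

theorem ind_false {p : Prop} (h : ¬ p) : ind p = 0 := if_neg h

/-- The probability of an event. -/
noncomputable def pr (E : ((ℂ → Bool) → ℝ) → ℝ) (p : (ℂ → Bool) → Prop) : ℝ :=
  E (fun F => ind (p F))

theorem bdd_ind {X : Type*} (p : X → Prop) : Bdd (fun x => ind (p x)) :=
  ⟨1, fun x => by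
    change |ind (p x)| ≤ 1
    rw [abs_of_nonneg (ind_nonneg _)]; exact ind_le_one _⟩

section

variable {f : ℂ → Bool} {E : ((ℂ → Bool) → ℝ) → ℝ}

theorem IsStat.mono (hE : IsStat f E) {Ψ Φ : (ℂ → Bool) → ℝ} (hΨ : Bdd Ψ) (hΦ : Bdd Φ)
    (h : ∀ θ w : ℂ, ‖θ‖ = 1 → Ψ (fun z => f (θ * z + w)) ≤ Φ (fun z => f (θ * z + w))) :
    E Ψ ≤ E Φ := by
  have h1 : 0 ≤ E (fun F => Φ F + (-1) * Ψ F) := by
    refine hE.nonneg _ (hΦ.add (hΨ.smul _)) fun θ w hθ => ?_
    linarith [h θ w hθ]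
  rw [hE.add _ _ hΦ (hΨ.smul _), hE.smul _ _ hΨ] at h1
  linarith

theorem IsStat.const (hE : IsStat f E) (c : ℝ) : E (fun _ => c) = c := by
  have := hE.smul c (fun _ => 1) (bdd_const 1)
  simpa [hE.one] using this

theorem IsStat.sum (hE : IsStat f E) {ι : Type*} (s : Finset ι) (Ψ : ι → (ℂ → Bool) → ℝ)
    (h : ∀ i ∈ s, Bdd (Ψ i)) :
    Bdd (fun F => ∑ i ∈ s, Ψ i F) ∧ E (fun F => ∑ i ∈ s, Ψ i F) = ∑ i ∈ s, E (Ψ i) := by
  classical
  induction s using Finset.induction_on with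
  | empty => exact ⟨by simpa using bdd_const 0, by simpa using hE.const 0⟩
  | insert a s ha ih =>
    obtain ⟨ih1, ih2⟩ := ih fun i hi => h i (Finset.mem_insert_of_mem hi)
    have ha' := h a (Finset.mem_insert_self a s)
    have e1 : (fun F => ∑ i ∈ insert a s, Ψ i F) = fun F => Ψ a F + ∑ i ∈ s, Ψ i F := by
      ext F; rw [Finset.sum_insert ha]
    rw [e1, Finset.sum_insert ha]
    exact ⟨ha'.add ih1, by rw [hE.add _ _ ha' ih1, ih2]⟩

theorem pr_nonneg (hE : IsStat f E) (p : (ℂ → Bool) → Prop) : 0 ≤ pr E p :=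
  hE.nonneg _ (bdd_ind p) fun _ _ _ => ind_nonneg _

theorem pr_mono (hE : IsStat f E) {p q : (ℂ → Bool) → Prop} (h : ∀ F, p F → q F) :
    pr E p ≤ pr E q := by
  refine hE.mono (bdd_ind p) (bdd_ind q) fun θ w _ => ?_
  by_cases h1 : p fun z => f (θ * z + w)
  · rw [ind_true h1, ind_true (h _ h1)]
  · rw [ind_false h1]; exact ind_nonneg _

theorem pr_null_of (hE : IsStat f E) {p q : (ℂ → Bool) → Prop} (h : ∀ F, p F → q F)
    (hq : pr E q = 0) : pr E p = 0 :=
  le_antisymm (hq ▸ pr_mono hE h) (pr_nonneg hE p)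

theorem pr_null_or (hE : IsStat f E) {p q : (ℂ → Bool) → Prop} (hp : pr E p = 0)
    (hq : pr E q = 0) : pr E (fun F => p F ∨ q F) = 0 := by
  refine le_antisymm ?_ (pr_nonneg hE _)
  have h1 : pr E (fun F => p F ∨ q F) ≤ E (fun F => ind (p F) + ind (q F)) := by
    refine hE.mono (bdd_ind _) ((bdd_ind p).add (bdd_ind q)) fun θ w _ => ?_
    by_cases h1 : p fun z => f (θ * z + w)
    · rw [ind_true (Or.inl h1), ind_true h1]
      linarith [ind_nonneg (q fun z => f (θ * z + w))]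
    · by_cases h2 : q fun z => f (θ * z + w)
      · rw [ind_true (Or.inr h2), ind_true h2]
        linarith [ind_nonneg (p fun z => f (θ * z + w))]
      · rw [ind_false (not_or.mpr ⟨h1, h2⟩)]
        linarith [ind_nonneg (p fun z => f (θ * z + w)), ind_nonneg (q fun z => f (θ * z + w))]
  rw [hE.add _ _ (bdd_ind p) (bdd_ind q)] at h1
  unfold pr at *
  linarith

theorem pr_null_exists (hE : IsStat f E) {ι : Type*} [Fintype ι] {p : ι → (ℂ → Bool) → Prop}
    (h : ∀ i, pr E (p i) = 0) : pr E (fun F => ∃ i, p i F) = 0 := by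
  refine le_antisymm ?_ (pr_nonneg hE _)
  obtain ⟨h1, h2⟩ := hE.sum Finset.univ (fun i F => ind (p i F)) fun i _ => bdd_ind (p i)
  have h3 : pr E (fun F => ∃ i, p i F) ≤ E (fun F => ∑ i, ind (p i F)) := by
    refine hE.mono (bdd_ind _) h1 fun θ w _ => ?_
    by_cases hex : ∃ i, p i fun z => f (θ * z + w)
    · obtain ⟨i, hi⟩ := hex
      rw [ind_true ⟨i, hi⟩]
      refine le_trans (le_of_eq (ind_true hi).symm) ?_
      exact Finset.single_le_sum (f := fun i => ind (p i fun z => f (θ * z + w)))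
        (fun j _ => ind_nonneg _) (Finset.mem_univ i)
    · rw [ind_false hex]
      exact Finset.sum_nonneg fun i _ => ind_nonneg _
  rw [h2] at h3
  refine h3.trans (le_of_eq ?_)
  exact Finset.sum_eq_zero fun i _ => h i

/-- Probability of different colours at distance `r`. -/
noncomputable def dd (E : ((ℂ → Bool) → ℝ) → ℝ) (r : ℝ) : ℝ := pr E (fun F => F 0 ≠ F (r : ℂ))

theorem pr_ne (hE : IsStat f E) (x y : ℂ) : pr E (fun F => F x ≠ F y) = dd E ‖x - y‖ := by
  by_cases hxy : x = y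
  · subst hxy
    simp [dd, pr]
  · have hn : ((‖x - y‖ : ℝ) : ℂ) ≠ 0 := by
      rw [Ne, Complex.ofReal_eq_zero, norm_eq_zero, sub_eq_zero]; exact hxy
    have hθ : ‖(y - x) / (‖x - y‖ : ℂ)‖ = 1 := by
      rw [norm_div, Complex.norm_real, norm_norm, norm_sub_rev y x]
      exact div_self (by rw [Ne, norm_eq_zero, sub_eq_zero]; exact hxy)
    have h := hE.inv ((y - x) / (‖x - y‖ : ℂ)) x hθ
      (fun F => ind (F 0 ≠ F ((‖x - y‖ : ℝ) : ℂ))) (bdd_ind _)
    unfold dd pr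
    rw [← h]
    have e1 : (y - x) / (‖x - y‖ : ℂ) * 0 + x = x := by ring
    have e2 : (y - x) / (‖x - y‖ : ℂ) * ((‖x - y‖ : ℝ) : ℂ) + x = y := by
      rw [div_mul_cancel₀ _ hn]; ring
    simp only [e1, e2]

/-- Sum over the three pairs of a triple. -/
theorem tri_sum (hE : IsStat f E) (x y z : ℂ) :
    dd E ‖x - y‖ + dd E ‖y - z‖ + dd E ‖x - z‖ = 2 - 2 * pr E (fun F => F x = F y ∧ F x = F z) := by
  rw [← pr_ne hE, ← pr_ne hE, ← pr_ne hE]
  have key : E (fun F => (ind (F x ≠ F y) + ind (F y ≠ F z)) + ind (F x ≠ F z)) =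
      E (fun F => 2 + (-2) * ind (F x = F y ∧ F x = F z)) := by
    congr 1
    ext F
    cases hx : F x <;> cases hy : F y <;> cases hz : F z <;> norm_num [ind]
  rw [hE.add _ _ ((bdd_ind _).add (bdd_ind _)) (bdd_ind _), hE.add _ _ (bdd_ind _) (bdd_ind _),
    hE.add _ _ (bdd_const _) ((bdd_ind _).smul _), hE.smul _ _ (bdd_ind _), hE.const] at key
  unfold pr
  rw [key]
  ring

theorem tri_null (hE : IsStat f E) {x y z : ℂ} (h1 : dd E ‖x - y‖ = 2 / 3)
    (h2 : dd E ‖y - z‖ = 2 / 3) (h3 : dd E ‖x - z‖ = 2 / 3) :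
    pr E (fun F => F x = F y ∧ F x = F z) = 0 := by
  have := tri_sum hE x y z
  rw [h1, h2, h3] at this
  linarith

theorem dd_nonneg (hE : IsStat f E) (r : ℝ) : 0 ≤ dd E r := pr_nonneg hE _

/-- Equilateral triangles: the probability of different colours at any distance is at most two
thirds. -/
theorem dd_le (hE : IsStat f E) {s : ℝ} (hs : 0 ≤ s) : dd E s ≤ 2 / 3 := by
  have h := tri_sum hE 0 (s : ℂ) (s * Complex.exp (((Real.pi / 3 : ℝ) : ℂ) * Complex.I))
  have e1 : ‖(0 : ℂ) - s‖ = s := by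
    rw [zero_sub, norm_neg, Complex.norm_real, Real.norm_of_nonneg hs]
  have e3 : ‖(0 : ℂ) - s * Complex.exp (((Real.pi / 3 : ℝ) : ℂ) * Complex.I)‖ = s := by
    rw [zero_sub, norm_neg, norm_mul, Complex.norm_exp_ofReal_mul_I, Complex.norm_real,
      Real.norm_of_nonneg hs, mul_one]
  have e2 : ‖(s : ℂ) - s * Complex.exp (((Real.pi / 3 : ℝ) : ℂ) * Complex.I)‖ = s := by
    have : (s : ℂ) - s * Complex.exp (((Real.pi / 3 : ℝ) : ℂ) * Complex.I)
        = s * (1 - Complex.exp (((Real.pi / 3 : ℝ) : ℂ) * Complex.I)) := by ring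
    rw [this, norm_mul, Complex.norm_real, Real.norm_of_nonneg hs]
    have h1 : (1 : ℂ) - Complex.exp (((Real.pi / 3 : ℝ) : ℂ) * Complex.I)
        = ⟨1 / 2, -(Real.sqrt 3 / 2)⟩ := by
      rw [Complex.exp_mul_I, ← Complex.ofReal_cos, ← Complex.ofReal_sin, Real.cos_pi_div_three,
        Real.sin_pi_div_three]
      apply Complex.ext
      · simp
        norm_num
      · simp
    rw [h1]
    have h2 : ‖(⟨1 / 2, -(Real.sqrt 3 / 2)⟩ : ℂ)‖ = 1 := by
      rw [Complex.norm_def, Complex.normSq_mk]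
      have : (1 : ℝ) / 2 * (1 / 2) + -(Real.sqrt 3 / 2) * -(Real.sqrt 3 / 2) = 1 := by
        have := Real.mul_self_sqrt (show (0 : ℝ) ≤ 3 by norm_num)
        nlinarith
      rw [this, Real.sqrt_one]
    rw [h2, mul_one]
  rw [e1, e2, e3] at h
  have := pr_nonneg hE (fun F => F 0 = F (s : ℂ) ∧
    F 0 = F (s * Complex.exp (((Real.pi / 3 : ℝ) : ℂ) * Complex.I)))
  linarith

/-- Isosceles triangles. -/
theorem dd_iso (hE : IsStat f E) {s r : ℝ} (hs : 0 ≤ s) (h : s ≤ 2 * r) : dd E s ≤ 2 * dd E r := by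
  have hr : 0 ≤ r := by linarith
  set t : ℝ := Real.sqrt (r ^ 2 - s ^ 2 / 4)
  have ht : t * t = r ^ 2 - s ^ 2 / 4 := Real.mul_self_sqrt (by nlinarith)
  set p : ℂ := ⟨s / 2, t⟩
  have e1 : ‖(0 : ℂ) - s‖ = s := by
    rw [zero_sub, norm_neg, Complex.norm_real, Real.norm_of_nonneg hs]
  have e2 : ‖(0 : ℂ) - p‖ = r := by
    rw [zero_sub, norm_neg, Complex.norm_def, Complex.normSq_mk, ht]
    rw [show s / 2 * (s / 2) + (r ^ 2 - s ^ 2 / 4) = r ^ 2 by ring]
    exact Real.sqrt_sq hr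
  have e3 : ‖p - (s : ℂ)‖ = r := by
    have : p - (s : ℂ) = ⟨-(s / 2), t⟩ := by
      apply Complex.ext
      · simp [p]
        ring
      · simp [p]
    rw [this, Complex.norm_def, Complex.normSq_mk, ht]
    rw [show -(s / 2) * -(s / 2) + (r ^ 2 - s ^ 2 / 4) = r ^ 2 by ring]
    exact Real.sqrt_sq hr
  have h0 : pr E (fun F => F 0 ≠ F (s : ℂ)) ≤
      E (fun F => ind (F 0 ≠ F p) + ind (F p ≠ F (s : ℂ))) := by
    refine hE.mono (bdd_ind _) ((bdd_ind _).add (bdd_ind _)) fun θ w _ => ?_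
    simp only
    generalize f (θ * 0 + w) = a
    generalize f (θ * p + w) = b
    generalize f (θ * s + w) = c
    cases a <;> cases b <;> cases c <;> norm_num [ind]
  rw [hE.add _ _ (bdd_ind _) (bdd_ind _)] at h0
  have h1 := pr_ne hE 0 p
  have h2 := pr_ne hE p (s : ℂ)
  have h3 := pr_ne hE 0 (s : ℂ)
  rw [e2] at h1
  rw [e3] at h2
  rw [e1] at h3
  unfold pr at h0 h1 h2 h3
  linarith

/-- Three points on a line: probability that a chain is not constant. -/
theorem chain_prob (hE : IsStat f E) (x d : ℂ) (h2 : 1 / 3 ≤ dd E ‖d‖)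
    (h4 : 1 / 3 ≤ dd E ‖d + d‖) :
    1 / 2 ≤ pr E (fun F => F (x + d) ≠ F x ∨ F (x - d) ≠ F x) := by
  have key : E (fun F => (ind (F (x + d) ≠ F x) + ind (F (x - d) ≠ F x)) +
      ind (F (x + d) ≠ F (x - d))) =
      E (fun F => 2 * ind (F (x + d) ≠ F x ∨ F (x - d) ≠ F x)) := by
    congr 1
    ext F
    cases h1 : F (x + d) <;> cases h2 : F x <;> cases h3 : F (x - d) <;> norm_num [ind]
  rw [hE.add _ _ ((bdd_ind _).add (bdd_ind _)) (bdd_ind _), hE.add _ _ (bdd_ind _) (bdd_ind _),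
    hE.smul _ _ (bdd_ind _)] at key
  have e1 := pr_ne hE (x + d) x
  have e2 := pr_ne hE (x - d) x
  have e3 := pr_ne hE (x + d) (x - d)
  rw [show x + d - x = d by ring] at e1
  rw [show x - d - x = -d by ring, norm_neg] at e2
  rw [show x + d - (x - d) = d + d by ring] at e3
  unfold pr at *
  linarith

/-- Five points: if eight of the ten pairs have probability two thirds and the others at least
one third, then almost surely the four other points do not all differ from the first one. -/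
theorem five (hE : IsStat f E) {x a b c d : ℂ}
    (h1 : dd E ‖x - a‖ = 2 / 3) (h2 : dd E ‖x - b‖ = 2 / 3) (h3 : dd E ‖x - c‖ = 2 / 3)
    (h4 : dd E ‖x - d‖ = 2 / 3) (h5 : dd E ‖a - b‖ = 2 / 3) (h6 : dd E ‖c - d‖ = 2 / 3)
    (h7 : dd E ‖a - c‖ = 2 / 3) (h8 : dd E ‖b - d‖ = 2 / 3) (h9 : 1 / 3 ≤ dd E ‖a - d‖)
    (h10 : 1 / 3 ≤ dd E ‖b - c‖) :
    pr E (fun F => F a ≠ F x ∧ F b ≠ F x ∧ F c ≠ F x ∧ F d ≠ F x) = 0 := by
  refine le_antisymm ?_ (pr_nonneg hE _)
  have B := fun y z : ℂ => bdd_ind (fun F : ℂ → Bool => F y ≠ F z)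
  have key : E (fun F => 2 * ind (F a ≠ F x ∧ F b ≠ F x ∧ F c ≠ F x ∧ F d ≠ F x)
      + (ind (F x ≠ F a) + (ind (F x ≠ F b) + (ind (F x ≠ F c) + (ind (F x ≠ F d)
      + (ind (F a ≠ F b) + (ind (F c ≠ F d) + (ind (F a ≠ F c) + (ind (F b ≠ F d)
      + (ind (F a ≠ F d) + ind (F b ≠ F c)))))))))))
      ≤ E (fun _ => 6) := by
    refine hE.mono (((bdd_ind _).smul _).add ((B _ _).add ((B _ _).add ((B _ _).add ((B _ _).add
      ((B _ _).add ((B _ _).add ((B _ _).add ((B _ _).add ((B _ _).add (B _ _)))))))))))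
      (bdd_const _) fun θ w _ => ?_
    simp only
    generalize f (θ * x + w) = x'
    generalize f (θ * a + w) = a'
    generalize f (θ * b + w) = b'
    generalize f (θ * c + w) = c'
    generalize f (θ * d + w) = d'
    cases x' <;> cases a' <;> cases b' <;> cases c' <;> cases d' <;> norm_num [ind]
  rw [hE.const, hE.add _ _ ((bdd_ind _).smul _) ((B _ _).add ((B _ _).add ((B _ _).add
      ((B _ _).add ((B _ _).add ((B _ _).add ((B _ _).add ((B _ _).add
      ((B _ _).add (B _ _)))))))))), hE.smul _ _ (bdd_ind _),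
    hE.add _ _ (B _ _) ((B _ _).add ((B _ _).add ((B _ _).add ((B _ _).add
      ((B _ _).add ((B _ _).add ((B _ _).add ((B _ _).add (B _ _))))))))),
    hE.add _ _ (B _ _) ((B _ _).add ((B _ _).add ((B _ _).add ((B _ _).add
      ((B _ _).add ((B _ _).add ((B _ _).add (B _ _)))))))),
    hE.add _ _ (B _ _) ((B _ _).add ((B _ _).add ((B _ _).add ((B _ _).add
      ((B _ _).add ((B _ _).add (B _ _))))))),
    hE.add _ _ (B _ _) ((B _ _).add ((B _ _).add ((B _ _).add ((B _ _).add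
      ((B _ _).add (B _ _)))))),
    hE.add _ _ (B _ _) ((B _ _).add ((B _ _).add ((B _ _).add ((B _ _).add (B _ _))))),
    hE.add _ _ (B _ _) ((B _ _).add ((B _ _).add ((B _ _).add (B _ _)))),
    hE.add _ _ (B _ _) ((B _ _).add ((B _ _).add (B _ _))),
    hE.add _ _ (B _ _) ((B _ _).add (B _ _)),
    hE.add _ _ (B _ _) (B _ _)] at key
  have P := pr_ne hE
  unfold pr at P ⊢
  rw [P x a, P x b, P x c, P x d, P a b, P c d, P a c, P b d, P a d, P b c, h1, h2, h3, h4, h5, h6,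
    h7, h8] at key
  linarith

end

end Pool.Agent.H58.ER
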