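import Pool.Agent.H58.ER.Plane

/-!
The contradiction for stationary colourings and the theorem in the complex plane.
-/

set_option autoImplicit false

namespace Pool.Agent.H58.ER

section

variable {f : ℂ → Bool} {E : ((ℂ → Bool) → ℝ) → ℝ}

theorem pr_false (hE : IsStat f E) {p : (ℂ → Bool) → Prop} (h : ∀ F, ¬ p F) : pr E p = 0 := by
  have : pr E p = E (fun _ => 0) := by
    unfold pr
    congr 1
    ext F
    exact ind_false (h F)
  rw [this, hE.const]

theorem good_null (hE : IsStat f E) {u v : ℂ} (hs : ∀ i, dd E ‖side u v i‖ = 2 / 3)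
    (hm : ∀ i i' j j', i ≠ i' → j ≠ j' → 1 / 3 ≤ dd E ‖arr u v i j - arr u v i' j'‖) (x : ℂ) :
    pr E (fun F => ¬ GoodAt F (arr u v) x) = 0 := by
  have h1 : ∀ k : Fin 3 × Fin 3 × Fin 3, pr E (fun F => k.2.1 ≠ k.2.2 ∧
      (F x = F (x + arr u v k.1 k.2.1) ∧ F x = F (x - arr u v k.1 k.2.2))) = 0 := by
    rintro ⟨i, j, j'⟩
    by_cases hj : j = j'
    · exact pr_false hE fun F h => h.1 hj
    · refine pr_null_of hE (fun F h => h.2) (tri_null hE ?_ ?_ ?_)
      · rw [show x - (x + arr u v i j) = -arr u v i j by ring, norm_neg, arr_norm]; exact hs i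
      · rw [show x + arr u v i j - (x - arr u v i j') = arr u v i j + arr u v i j' by ring,
          arr_add_row u v i j j' hj]
        exact hs i
      · rw [show x - (x - arr u v i j') = arr u v i j' by ring, arr_norm]; exact hs i
  have h2 : ∀ k : Fin 3 × Fin 3 × Fin 3, pr E (fun F => k.1 ≠ k.2.1 ∧
      (F x = F (x + arr u v k.1 k.2.2) ∧ F x = F (x - arr u v k.2.1 k.2.2))) = 0 := by
    rintro ⟨i, i', j⟩
    by_cases hi : i = i'
    · exact pr_false hE fun F h => h.1 hi
    · refine pr_null_of hE (fun F h => h.2) (tri_null hE ?_ ?_ ?_)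
      · rw [show x - (x + arr u v i j) = -arr u v i j by ring, norm_neg, arr_norm]; exact hs i
      · rw [show x + arr u v i j - (x - arr u v i' j) = arr u v i j + arr u v i' j by ring]
        obtain ⟨k, hk⟩ := arr_add_col u v i i' j hi
        rw [hk]
        exact hs k
      · rw [show x - (x - arr u v i' j) = arr u v i' j by ring, arr_norm]; exact hs i'
  have h3 : ∀ k : Fin 3 × Fin 3 × Fin 3 × Fin 3, pr E (fun F => (k.1 ≠ k.2.1 ∧ k.2.2.1 ≠ k.2.2.2) ∧
      (F (x + arr u v k.1 k.2.2.1) ≠ F x ∧ F (x - arr u v k.1 k.2.2.2) ≠ F x ∧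
        F (x - arr u v k.2.1 k.2.2.1) ≠ F x ∧ F (x + arr u v k.2.1 k.2.2.2) ≠ F x)) = 0 := by
    rintro ⟨i, i', j, j'⟩
    by_cases hi : i = i'
    · exact pr_false hE fun F h => h.1.1 hi
    by_cases hj : j = j'
    · exact pr_false hE fun F h => h.1.2 hj
    refine pr_null_of hE (fun F h => h.2) (five hE ?_ ?_ ?_ ?_ ?_ ?_ ?_ ?_ ?_ ?_)
    · rw [show x - (x + arr u v i j) = -arr u v i j by ring, norm_neg, arr_norm]; exact hs i
    · rw [show x - (x - arr u v i j') = arr u v i j' by ring, arr_norm]; exact hs i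
    · rw [show x - (x - arr u v i' j) = arr u v i' j by ring, arr_norm]; exact hs i'
    · rw [show x - (x + arr u v i' j') = -arr u v i' j' by ring, norm_neg, arr_norm]; exact hs i'
    · rw [show x + arr u v i j - (x - arr u v i j') = arr u v i j + arr u v i j' by ring,
        arr_add_row u v i j j' hj]
      exact hs i
    · rw [show x - arr u v i' j - (x + arr u v i' j') = -(arr u v i' j + arr u v i' j') by ring,
        norm_neg, arr_add_row u v i' j j' hj]
      exact hs i'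
    · rw [show x + arr u v i j - (x - arr u v i' j) = arr u v i j + arr u v i' j by ring]
      obtain ⟨k, hk⟩ := arr_add_col u v i i' j hi
      rw [hk]
      exact hs k
    · rw [show x - arr u v i j' - (x + arr u v i' j') = -(arr u v i j' + arr u v i' j') by ring,
        norm_neg]
      obtain ⟨k, hk⟩ := arr_add_col u v i i' j' hi
      rw [hk]
      exact hs k
    · rw [show x + arr u v i j - (x + arr u v i' j') = arr u v i j - arr u v i' j' by ring]
      exact hm i i' j j' hi hj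
    · rw [show x - arr u v i j' - (x - arr u v i' j) = -(arr u v i j' - arr u v i' j) by ring,
        norm_neg]
      exact hm i i' j' j hi (Ne.symm hj)
  refine pr_null_of hE (fun F h => ?_) (pr_null_or hE (pr_null_or hE (pr_null_exists hE h1)
    (pr_null_exists hE h2)) (pr_null_exists hE h3))
  by_contra hcon
  push Not at hcon
  obtain ⟨⟨g1, g2⟩, g3⟩ := hcon
  refine h ⟨?_, ?_, ?_⟩
  · intro i j j' hj hh
    exact g1 (i, j, j') hj hh.1 hh.2
  · intro i i' j hi hh
    exact g2 (i, i', j) hi hh.1 hh.2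
  · intro i i' j j' hi hj hh
    exact hh.2.2.2 (g3 (i, i', j, j') ⟨hi, hj⟩ hh.1 hh.2.1 hh.2.2.1)

theorem goodN_null (hE : IsStat f E) {e : Fin 3 → Fin 3 → ℂ}
    (h : ∀ x, pr E (fun F => ¬ GoodAt F e x) = 0) (n : ℕ) :
    ∀ x, pr E (fun F => ¬ GoodN n F e x) = 0 := by
  induction n with
  | zero => exact h
  | succ n ih =>
    intro x
    have h1 : ∀ k : Fin 3 × Fin 3, pr E (fun F => ¬ GoodN n F e (x + e k.1 k.2) ∨
        ¬ GoodN n F e (x - e k.1 k.2)) = 0 := fun k => pr_null_or hE (ih _) (ih _)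
    refine pr_null_of hE (fun F hF => ?_) (pr_null_or hE (ih x) (pr_null_exists hE h1))
    by_contra hcon
    push Not at hcon
    exact hF ⟨hcon.1, fun i j => hcon.2 (i, j)⟩

/-- A stationary colouring cannot have probability two thirds at the three sides of a triangle
in the region. -/
theorem no_stat (hE : IsStat f E) {u v : ℂ} (hu : dd E ‖u‖ = 2 / 3) (hv : dd E ‖v‖ = 2 / 3)
    (hw : dd E ‖u - v‖ = 2 / 3) {s : ℝ} (hs0 : 0 ≤ s) (hs : dd E s = 2 / 3)
    (hreg : s ^ 2 / 4 ≤ rad u v) : False := by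
  have hside : ∀ i, dd E ‖side u v i‖ = 2 / 3 := by
    intro i
    fin_cases i
    · simpa [side] using hu
    · simp only [side, Fin.mk_one, Matrix.cons_val_one, Matrix.cons_val_zero]
      rw [norm_sub_rev]
      exact hw
    · simpa [side] using hv
  have hmin : ∀ i i' j j', i ≠ i' → j ≠ j' →
      1 / 3 ≤ dd E ‖arr u v i j - arr u v i' j'‖ := by
    intro i i' j j' hi hj
    have h1 := arr_minor u v i i' j j' hi hj
    have h2 : s ≤ 2 * ‖arr u v i j - arr u v i' j'‖ := by
      have h3 : s ^ 2 ≤ (2 * ‖arr u v i j - arr u v i' j'‖) ^ 2 := by nlinarith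
      exact (sq_le_sq₀ hs0 (by positivity)).mp h3
    have h4 := dd_iso hE hs0 h2
    linarith
  have hnull := goodN_null hE (good_null hE hside hmin) 3 0
  have hc : ∀ i j, 1 / 2 ≤ pr E (fun F => F (0 + (arr u v i j + arr u v i j)) ≠ F 0 ∨
      F (0 - (arr u v i j + arr u v i j)) ≠ F 0) := by
    intro i j
    have n1 : ‖arr u v i j + arr u v i j‖ = 2 * ‖side u v i‖ := by
      rw [← two_mul, norm_mul, arr_norm]; norm_num
    have n2 : ‖arr u v i j + arr u v i j + (arr u v i j + arr u v i j)‖ = 4 * ‖side u v i‖ := by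
      rw [show arr u v i j + arr u v i j + (arr u v i j + arr u v i j) = 4 * arr u v i j by ring,
        norm_mul, arr_norm]
      norm_num
    have hn := norm_nonneg (side u v i)
    refine chain_prob hE 0 _ ?_ ?_
    · rw [n1]
      have := dd_iso hE hn (r := 2 * ‖side u v i‖) (by linarith)
      rw [hside i] at this
      linarith
    · rw [n2]
      have := dd_iso hE hn (r := 4 * ‖side u v i‖) (by linarith)
      rw [hside i] at this
      linarith
  have hsum := hE.sum (Finset.univ : Finset (Fin 3 × Fin 3))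
    (fun k F => ind (F (0 + (arr u v k.1 k.2 + arr u v k.1 k.2)) ≠ F 0 ∨
      F (0 - (arr u v k.1 k.2 + arr u v k.1 k.2)) ≠ F 0)) (fun k _ => bdd_ind _)
  have hle : E (fun F => ∑ k : Fin 3 × Fin 3,
      ind (F (0 + (arr u v k.1 k.2 + arr u v k.1 k.2)) ≠ F 0 ∨
      F (0 - (arr u v k.1 k.2 + arr u v k.1 k.2)) ≠ F 0)) ≤
      E (fun F => 4 + 5 * ind (¬ GoodN 3 F (arr u v) 0)) := by
    refine hE.mono hsum.1 ((bdd_const _).add ((bdd_ind _).smul _)) fun θ w _ => ?_
    set F : ℂ → Bool := fun z => f (θ * z + w)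
    by_cases hg : GoodN 3 F (arr u v) 0
    · rw [ind_false (not_not.mpr hg)]
      have := chain_bound (arr_row u v) (arr_col u v) hg
      simp only [Fintype.sum_prod_type, ind_eq]
      linarith
    · rw [ind_true hg]
      calc ∑ k : Fin 3 × Fin 3, ind (F (0 + (arr u v k.1 k.2 + arr u v k.1 k.2)) ≠ F 0 ∨
            F (0 - (arr u v k.1 k.2 + arr u v k.1 k.2)) ≠ F 0)
          ≤ ∑ _k : Fin 3 × Fin 3, (1 : ℝ) := Finset.sum_le_sum fun k _ => ind_le_one _
        _ = 4 + 5 * 1 := by simp; norm_num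
  rw [hsum.2, hE.add _ _ (bdd_const _) ((bdd_ind _).smul _), hE.const,
    hE.smul _ _ (bdd_ind _)] at hle
  have hlow : ∑ _k : Fin 3 × Fin 3, (1 / 2 : ℝ) ≤ ∑ k : Fin 3 × Fin 3,
      E (fun F => ind (F (0 + (arr u v k.1 k.2 + arr u v k.1 k.2)) ≠ F 0 ∨
      F (0 - (arr u v k.1 k.2 + arr u v k.1 k.2)) ≠ F 0)) :=
    Finset.sum_le_sum fun k _ => hc k.1 k.2
  have h9 : ∑ _k : Fin 3 × Fin 3, (1 / 2 : ℝ) = 9 / 2 := by simp; norm_num
  unfold pr at hnull
  rw [hnull] at hle
  linarith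

end

/-- If no direct copy of the triangle `0, u, v` is monochromatic then the probabilities at the
three sides are two thirds. -/
theorem sides_of_no_mono {f : ℂ → Bool} {E : ((ℂ → Bool) → ℝ) → ℝ} (hE : IsStat f E) {u v : ℂ}
    (h : ∀ θ w : ℂ, ‖θ‖ = 1 → ¬ (f w = f (θ * u + w) ∧ f w = f (θ * v + w))) :
    dd E ‖u‖ = 2 / 3 ∧ dd E ‖v‖ = 2 / 3 ∧ dd E ‖u - v‖ = 2 / 3 := by
  have h0 : pr E (fun F => F 0 = F u ∧ F 0 = F v) = 0 := by
    refine le_antisymm ?_ (pr_nonneg hE _)
    have : pr E (fun F => F 0 = F u ∧ F 0 = F v) ≤ E (fun _ => 0) := by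
      refine hE.mono (bdd_ind _) (bdd_const _) fun θ w hθ => ?_
      simp only
      rw [ind_false]
      have := h θ w hθ
      simpa using this
    rwa [hE.const] at this
  have h1 := tri_sum hE 0 u v
  rw [h0, zero_sub, zero_sub, norm_neg, norm_neg] at h1
  have a1 := dd_le hE (norm_nonneg u)
  have a2 := dd_le hE (norm_nonneg v)
  have a3 := dd_le hE (norm_nonneg (u - v))
  refine ⟨?_, ?_, ?_⟩ <;> linarith

/-- The main theorem in the complex plane. -/
theorem main_complex (f : ℂ → Bool) (u v : ℂ)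
    (hreg : ‖u‖ ^ 2 / 4 ≤ rad u v ∨ ‖v‖ ^ 2 / 4 ≤ rad u v ∨ ‖u - v‖ ^ 2 / 4 ≤ rad u v) :
    ∃ θ w : ℂ, ‖θ‖ = 1 ∧ f w = f (θ * u + w) ∧ f w = f (θ * v + w) := by
  by_contra hcon
  push Not at hcon
  obtain ⟨E, hE⟩ := exists_stat f
  obtain ⟨h1, h2, h3⟩ := sides_of_no_mono (u := u) (v := v) hE
    (fun θ w hθ hh => hcon θ w hθ hh.1 hh.2)
  rcases hreg with h | h | h
  · exact no_stat hE h1 h2 h3 (norm_nonneg u) h1 h
  · exact no_stat hE h1 h2 h3 (norm_nonneg v) h2 h
  · exact no_stat hE h1 h2 h3 (norm_nonneg (u - v)) h3 h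

end Pool.Agent.H58.ER
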