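import Mathlib

/-!
Invariant means on abelian groups and the stationary functional attached to a two-colouring of
the complex plane.
-/

set_option autoImplicit false

namespace Pool.Agent.H58.ER

open Filter Topology

/-- Bounded real functions. -/
def Bdd {X : Type*} (φ : X → ℝ) : Prop := ∃ C : ℝ, ∀ x, |φ x| ≤ C

theorem Bdd.add {X : Type*} {φ ψ : X → ℝ} (h : Bdd φ) (k : Bdd ψ) :
    Bdd (fun x => φ x + ψ x) := by
  obtain ⟨C, hC⟩ := h
  obtain ⟨D, hD⟩ := k
  exact ⟨C + D, fun x => (abs_add_le _ _).trans (add_le_add (hC x) (hD x))⟩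

theorem Bdd.smul {X : Type*} {φ : X → ℝ} (h : Bdd φ) (c : ℝ) : Bdd (fun x => c * φ x) := by
  obtain ⟨C, hC⟩ := h
  exact ⟨|c| * C, fun x => by rw [abs_mul]; exact mul_le_mul_of_nonneg_left (hC x) (abs_nonneg c)⟩

theorem Bdd.comp {X Y : Type*} {φ : X → ℝ} (h : Bdd φ) (g : Y → X) : Bdd (fun y => φ (g y)) := by
  obtain ⟨C, hC⟩ := h
  exact ⟨C, fun y => hC _⟩

theorem bdd_const {X : Type*} (c : ℝ) : Bdd (fun _ : X => c) := ⟨|c|, fun _ => le_rfl⟩

/-- Limit along an ultrafilter. -/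
noncomputable def ulim {I : Type*} (U : Ultrafilter I) (a : I → ℝ) : ℝ := limUnder (U : Filter I) a

theorem ulim_tendsto {I : Type*} (U : Ultrafilter I) {a : I → ℝ} (h : Bdd a) :
    Tendsto a (U : Filter I) (𝓝 (ulim U a)) := by
  obtain ⟨C, hC⟩ := h
  have hK : IsCompact (Set.Icc (-C) C) := isCompact_Icc
  have hm : (U.map a : Filter ℝ) ≤ 𝓟 (Set.Icc (-C) C) := by
    rw [le_principal_iff]
    change a ⁻¹' (Set.Icc (-C) C) ∈ (U : Filter I)
    exact Filter.univ_mem' fun i => ⟨(abs_le.mp (hC i)).1, (abs_le.mp (hC i)).2⟩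
  obtain ⟨x, _, hx⟩ := hK.ultrafilter_le_nhds (U.map a) hm
  exact tendsto_nhds_limUnder ⟨x, hx⟩

theorem ulim_eq {I : Type*} (U : Ultrafilter I) {a : I → ℝ} {x : ℝ}
    (h : Tendsto a (U : Filter I) (𝓝 x)) : ulim U a = x := h.limUnder_eq

/-- Operators on functions that average over translates. -/
structure Op {A : Type*} [AddCommGroup A] (T : (A → ℝ) → A → ℝ) : Prop where
  bd : ∀ φ C, (∀ x, |φ x| ≤ C) → ∀ x, |T φ x| ≤ C
  add : ∀ φ ψ, Bdd φ → Bdd ψ → ∀ x, T (fun y => φ y + ψ y) x = T φ x + T ψ x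
  smul : ∀ (c : ℝ) φ, Bdd φ → ∀ x, T (fun y => c * φ y) x = c * T φ x
  nonneg : ∀ φ, Bdd φ → (∀ x, 0 ≤ φ x) → ∀ x, 0 ≤ T φ x
  one : ∀ x, T (fun _ => 1) x = 1
  tr : ∀ φ k x, T (fun y => φ (y + k)) x = T φ (x + k)

/-- Average over the translates by multiples of `h`. -/
noncomputable def av {A : Type*} [AddCommGroup A] (h : A) (φ : A → ℝ) (x : A) : ℝ :=
  ulim (Filter.hyperfilter ℕ)
    (fun N : ℕ => (∑ n ∈ Finset.range (N + 1), φ (x + n • h)) / ((N : ℝ) + 1))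

theorem av_bd {A : Type*} [AddCommGroup A] (h : A) {φ : A → ℝ} {C : ℝ} (hC : ∀ x, |φ x| ≤ C)
    (x : A) (N : ℕ) : |(∑ n ∈ Finset.range (N + 1), φ (x + n • h)) / ((N : ℝ) + 1)| ≤ C := by
  have hN : (0 : ℝ) < (N : ℝ) + 1 := by positivity
  rw [abs_div, abs_of_pos hN, div_le_iff₀ hN]
  calc |∑ n ∈ Finset.range (N + 1), φ (x + n • h)|
      ≤ ∑ n ∈ Finset.range (N + 1), |φ (x + n • h)| := Finset.abs_sum_le_sum_abs _ _
    _ ≤ ∑ _n ∈ Finset.range (N + 1), C := Finset.sum_le_sum fun n _ => hC _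
    _ = C * ((N : ℝ) + 1) := by simp; ring

theorem av_tendsto {A : Type*} [AddCommGroup A] (h : A) {φ : A → ℝ} (hφ : Bdd φ) (x : A) :
    Tendsto (fun N : ℕ => (∑ n ∈ Finset.range (N + 1), φ (x + n • h)) / ((N : ℝ) + 1))
      (Filter.hyperfilter ℕ : Filter ℕ) (𝓝 (av h φ x)) := by
  obtain ⟨C, hC⟩ := hφ
  exact ulim_tendsto _ ⟨C, fun N => av_bd h hC x N⟩

theorem av_op {A : Type*} [AddCommGroup A] (h : A) : Op (av h) := by
  refine ⟨?_, ?_, ?_, ?_, ?_, ?_⟩
  · intro φ C hC x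
    have ht := (av_tendsto h ⟨C, hC⟩ x).abs
    exact le_of_tendsto ht (Filter.Eventually.of_forall fun N => av_bd h hC x N)
  · intro φ ψ hφ hψ x
    refine tendsto_nhds_unique (av_tendsto h (hφ.add hψ) x) ?_
    refine ((av_tendsto h hφ x).add (av_tendsto h hψ x)).congr fun N => ?_
    rw [Finset.sum_add_distrib, add_div]
  · intro c φ hφ x
    refine tendsto_nhds_unique (av_tendsto h (hφ.smul c) x) ?_
    refine ((av_tendsto h hφ x).const_mul c).congr fun N => ?_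
    rw [← Finset.mul_sum, mul_div_assoc]
  · intro φ hφ h0 x
    refine ge_of_tendsto (av_tendsto h hφ x) (Filter.Eventually.of_forall fun N => ?_)
    exact div_nonneg (Finset.sum_nonneg fun n _ => h0 _) (by positivity)
  · intro x
    refine tendsto_nhds_unique (av_tendsto h (bdd_const 1) x) ?_
    refine tendsto_const_nhds.congr fun N => ?_
    have hN : (0 : ℝ) < (N : ℝ) + 1 := by positivity
    rw [eq_div_iff hN.ne']
    simp
  · intro φ k x
    unfold av
    congr 1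
    ext N
    congr 1
    exact Finset.sum_congr rfl fun n _ => by rw [add_right_comm]

theorem av_per {A : Type*} [AddCommGroup A] (h : A) {φ : A → ℝ} (hφ : Bdd φ) (x : A) :
    av h φ (x + h) = av h φ x := by
  have h1 := av_tendsto h hφ (x + h)
  have h2 := av_tendsto h hφ x
  have h3 : Tendsto (fun N : ℕ => (φ (x + (N + 1) • h) - φ x) / ((N : ℝ) + 1))
      (Filter.hyperfilter ℕ : Filter ℕ) (𝓝 0) := by
    have hat : Tendsto (fun N : ℕ => (φ (x + (N + 1) • h) - φ x) / ((N : ℝ) + 1)) atTop (𝓝 0) := by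
      obtain ⟨C, hC⟩ := hφ
      have hb : ∀ N : ℕ, |(φ (x + (N + 1) • h) - φ x) / ((N : ℝ) + 1)| ≤ (2 * C) * (1 / ((N : ℝ) + 1)) := by
        intro N
        have hN : (0 : ℝ) < (N : ℝ) + 1 := by positivity
        rw [abs_div, abs_of_pos hN, div_le_iff₀ hN]
        have : 2 * C * (1 / ((N : ℝ) + 1)) * ((N : ℝ) + 1) = 2 * C := by field_simp
        rw [this]
        calc |φ (x + (N + 1) • h) - φ x| ≤ |φ (x + (N + 1) • h)| + |φ x| := abs_sub _ _
          _ ≤ 2 * C := by linarith [hC (x + (N + 1) • h), hC x]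
      have hz : Tendsto (fun N : ℕ => (2 * C) * (1 / ((N : ℝ) + 1))) atTop (𝓝 0) := by
        simpa using tendsto_one_div_add_atTop_nhds_zero_nat.const_mul (2 * C)
      exact squeeze_zero_norm hb hz
    refine hat.mono_left ?_
    rw [← Nat.cofinite_eq_atTop]
    exact Filter.hyperfilter_le_cofinite
  refine tendsto_nhds_unique h1 ?_
  have h4 := h2.add h3
  rw [add_zero] at h4
  refine h4.congr fun N => ?_
  rw [← add_div]
  congr 1
  have e1 : ∑ n ∈ Finset.range (N + 1), φ (x + h + n • h)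
      = ∑ n ∈ Finset.range (N + 1), φ (x + (n + 1) • h) := by
    refine Finset.sum_congr rfl fun n _ => ?_
    congr 1
    rw [add_smul, one_smul]
    abel
  rw [e1]
  have e2 := Finset.sum_range_succ (fun n => φ (x + n • h)) (N + 1)
  have e3 := Finset.sum_range_succ' (fun n => φ (x + n • h)) (N + 1)
  simp only [zero_smul, add_zero] at e3
  linarith

theorem Op.comp {A : Type*} [AddCommGroup A] {S T : (A → ℝ) → A → ℝ} (hS : Op S) (hT : Op T) :
    Op (fun φ => S (T φ)) := by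
  have hb : ∀ φ, Bdd φ → Bdd (T φ) := by
    rintro φ ⟨C, hC⟩
    exact ⟨C, hT.bd φ C hC⟩
  refine ⟨?_, ?_, ?_, ?_, ?_, ?_⟩
  · intro φ C hC
    exact hS.bd _ C (hT.bd φ C hC)
  · intro φ ψ hφ hψ x
    have : T (fun y => φ y + ψ y) = fun y => T φ y + T ψ y := by
      ext y; exact hT.add φ ψ hφ hψ y
    rw [this, hS.add _ _ (hb φ hφ) (hb ψ hψ)]
  · intro c φ hφ x
    have : T (fun y => c * φ y) = fun y => c * T φ y := by
      ext y; exact hT.smul c φ hφ y
    rw [this, hS.smul _ _ (hb φ hφ)]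
  · intro φ hφ h0 x
    exact hS.nonneg _ (hb φ hφ) (hT.nonneg φ hφ h0) x
  · intro x
    have : T (fun _ => 1) = fun _ => 1 := by
      ext y; exact hT.one y
    rw [this, hS.one]
  · intro φ k x
    have : T (fun y => φ (y + k)) = fun y => T φ (y + k) := by
      ext y; exact hT.tr φ k y
    rw [this, hS.tr]

theorem id_op {A : Type*} [AddCommGroup A] : Op (fun φ : A → ℝ => φ) :=
  ⟨fun _ _ h => h, fun _ _ _ _ _ => rfl, fun _ _ _ _ => rfl, fun _ _ h => h, fun _ => rfl,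
    fun _ _ _ => rfl⟩

theorem exists_op {A : Type*} [AddCommGroup A] (L : List A) :
    ∃ T : (A → ℝ) → A → ℝ, Op T ∧ ∀ h ∈ L, ∀ φ, Bdd φ → ∀ x, T φ (x + h) = T φ x := by
  induction L with
  | nil => exact ⟨_, id_op, by simp⟩
  | cons h L ih =>
    obtain ⟨T, hT, hp⟩ := ih
    refine ⟨fun φ => av h (T φ), (av_op h).comp hT, ?_⟩
    intro k hk φ hφ x
    have hb : Bdd (T φ) := by
      obtain ⟨C, hC⟩ := hφ
      exact ⟨C, hT.bd φ C hC⟩
    rcases List.mem_cons.mp hk with rfl | hk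
    · exact av_per k hb x
    · simp only
      rw [← (av_op h).tr]
      congr 1
      ext y
      exact hp k hk φ hφ y

/-- Means on bounded functions. -/
structure IsMean {X : Type*} (m : (X → ℝ) → ℝ) : Prop where
  add : ∀ φ ψ, Bdd φ → Bdd ψ → m (fun x => φ x + ψ x) = m φ + m ψ
  smul : ∀ (c : ℝ) φ, Bdd φ → m (fun x => c * φ x) = c * m φ
  nonneg : ∀ φ, Bdd φ → (∀ x, 0 ≤ φ x) → 0 ≤ m φ
  one : m (fun _ => 1) = 1

theorem IsMean.abs_le {X : Type*} {m : (X → ℝ) → ℝ} (hm : IsMean m) {φ : X → ℝ} {C : ℝ}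
    (hC : ∀ x, |φ x| ≤ C) : |m φ| ≤ C := by
  have hb : Bdd φ := ⟨C, hC⟩
  have h1 : m (fun x => C * 1) = C := by
    rw [hm.smul C _ (bdd_const 1), hm.one, mul_one]
  have h2 : 0 ≤ m (fun x => C * 1 + (-1) * φ x) := by
    refine hm.nonneg _ ((bdd_const _).add (hb.smul _)) fun x => ?_
    linarith [(_root_.abs_le.mp (hC x)).2]
  have h3 : 0 ≤ m (fun x => C * 1 + 1 * φ x) := by
    refine hm.nonneg _ ((bdd_const _).add (hb.smul _)) fun x => ?_
    linarith [(_root_.abs_le.mp (hC x)).1]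
  rw [hm.add _ _ (bdd_const _) (hb.smul _), hm.smul _ _ hb, h1] at h2 h3
  rw [_root_.abs_le]
  constructor <;> linarith

/-- Every abelian group has an invariant mean. -/
theorem exists_invMean (A : Type*) [AddCommGroup A] :
    ∃ m : (A → ℝ) → ℝ, IsMean m ∧ ∀ (h : A) φ, Bdd φ → m (fun x => φ (x + h)) = m φ := by
  choose T hT hp using fun S : Finset A => exists_op S.toList
  let U : Ultrafilter (Finset A) := Ultrafilter.of atTop
  have hU : (U : Filter (Finset A)) ≤ atTop := Ultrafilter.of_le atTop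
  have hb : ∀ φ : A → ℝ, Bdd φ → Bdd (fun S => T S φ 0) := by
    rintro φ ⟨C, hC⟩
    exact ⟨C, fun S => (hT S).bd φ C hC 0⟩
  refine ⟨fun φ => ulim U (fun S => T S φ 0), ⟨?_, ?_, ?_, ?_⟩, ?_⟩
  · intro φ ψ hφ hψ
    refine ulim_eq U (((ulim_tendsto U (hb φ hφ)).add (ulim_tendsto U (hb ψ hψ))).congr fun S => ?_)
    exact ((hT S).add φ ψ hφ hψ 0).symm
  · intro c φ hφ
    refine ulim_eq U (((ulim_tendsto U (hb φ hφ)).const_mul c).congr fun S => ?_)
    exact ((hT S).smul c φ hφ 0).symm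
  · intro φ hφ h0
    exact ge_of_tendsto (ulim_tendsto U (hb φ hφ))
      (Filter.Eventually.of_forall fun S => (hT S).nonneg φ hφ h0 0)
  · refine ulim_eq U (tendsto_const_nhds.congr fun S => ?_)
    exact ((hT S).one 0).symm
  · intro h φ hφ
    refine ulim_eq U ((ulim_tendsto U (hb φ hφ)).congr' ?_)
    have hev : ∀ᶠ S : Finset A in atTop, h ∈ S := by
      filter_upwards [Filter.eventually_ge_atTop ({h} : Finset A)] with S hS
      exact hS (Finset.mem_singleton_self h)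
    filter_upwards [hU hev] with S hS
    rw [(hT S).tr φ h 0, hp S h (Finset.mem_toList.mpr hS) φ hφ 0]

/-- A functional on the functions of a two-colouring of the plane, invariant under rotations and
translations, positive on functions which are nonnegative on all direct motions of `f`. -/
structure IsStat (f : ℂ → Bool) (E : ((ℂ → Bool) → ℝ) → ℝ) : Prop where
  add : ∀ Ψ Φ, Bdd Ψ → Bdd Φ → E (fun F => Ψ F + Φ F) = E Ψ + E Φ
  smul : ∀ (c : ℝ) Ψ, Bdd Ψ → E (fun F => c * Ψ F) = c * E Ψ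
  nonneg : ∀ Ψ, Bdd Ψ → (∀ θ w : ℂ, ‖θ‖ = 1 → 0 ≤ Ψ (fun z => f (θ * z + w))) → 0 ≤ E Ψ
  one : E (fun _ => 1) = 1
  inv : ∀ θ w : ℂ, ‖θ‖ = 1 → ∀ Ψ, Bdd Ψ → E (fun F => Ψ (fun z => F (θ * z + w))) = E Ψ

theorem exists_stat (f : ℂ → Bool) : ∃ E : ((ℂ → Bool) → ℝ) → ℝ, IsStat f E := by
  obtain ⟨m1, h1, i1⟩ := exists_invMean ℝ
  obtain ⟨m2, h2, i2⟩ := exists_invMean ℂ
  have hb : ∀ Ψ : (ℂ → Bool) → ℝ, Bdd Ψ →
      Bdd (fun t : ℝ => m2 (fun w => Ψ (fun z => f (Complex.exp (t * Complex.I) * z + w)))) := by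
    rintro Ψ ⟨C, hC⟩
    exact ⟨C, fun t => h2.abs_le fun w => hC _⟩
  refine ⟨fun Ψ => m1 (fun t => m2 (fun w => Ψ (fun z => f (Complex.exp (t * Complex.I) * z + w)))),
    ⟨?_, ?_, ?_, ?_, ?_⟩⟩
  · intro Ψ Φ hΨ hΦ
    rw [← h1.add _ _ (hb Ψ hΨ) (hb Φ hΦ)]
    congr 1
    ext t
    exact h2.add _ _ (hΨ.comp _) (hΦ.comp _)
  · intro c Ψ hΨ
    rw [← h1.smul _ _ (hb Ψ hΨ)]
    congr 1
    ext t
    exact h2.smul _ _ (hΨ.comp _)
  · intro Ψ hΨ h0
    refine h1.nonneg _ (hb Ψ hΨ) fun t => h2.nonneg _ (hΨ.comp _) fun w => ?_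
    exact h0 _ _ (Complex.norm_exp_ofReal_mul_I t)
  · have : (fun t : ℝ => m2 (fun _ => 1)) = fun _ => (1 : ℝ) := by
      ext t; exact h2.one
    simp only
    rw [this, h1.one]
  · intro θ w' hθ Ψ hΨ
    obtain ⟨s, hs⟩ : ∃ s : ℝ, Complex.exp (s * Complex.I) = θ := by
      refine ⟨Complex.arg θ, ?_⟩
      have := Complex.norm_mul_exp_arg_mul_I θ
      rw [hθ] at this
      simpa using this
    rw [← i1 s _ (hb Ψ hΨ)]
    congr 1
    ext t
    refine Eq.trans ?_ (i2 (Complex.exp (t * Complex.I) * w')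
      (fun w => Ψ (fun z => f (Complex.exp (((t + s : ℝ) : ℂ) * Complex.I) * z + w)))
      (hΨ.comp _))
    refine congrArg m2 (funext fun w => congrArg Ψ (funext fun z => congrArg f ?_))
    push_cast
    rw [add_mul, Complex.exp_add, hs]
    ring

end Pool.Agent.H58.ER
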