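import Pool.Agent.H58.ER.Dist

/-!
The array attached to a triangle and the main argument.
-/

set_option autoImplicit false

namespace Pool.Agent.H58.ER

/-- A primitive third root of unity. -/
noncomputable def om : ℂ := ⟨-(1 / 2), Real.sqrt 3 / 2⟩

theorem s3 : Real.sqrt 3 * Real.sqrt 3 = 3 := Real.mul_self_sqrt (by norm_num)

theorem om_sq : om ^ 2 = ⟨-(1 / 2), -(Real.sqrt 3 / 2)⟩ := by
  have := s3
  rw [pow_two]
  apply Complex.ext
  · simp only [om, Complex.mul_re]
    nlinarith
  · simp only [om, Complex.mul_im]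
    ring

theorem om_sum : 1 + om + om ^ 2 = 0 := by
  rw [om_sq]
  apply Complex.ext
  · simp only [om, Complex.add_re, Complex.one_re, Complex.zero_re]
    norm_num
  · simp only [om, Complex.add_im, Complex.one_im, Complex.zero_im]
    ring

theorem om_norm : ‖om‖ = 1 := by
  rw [Complex.norm_def, om, Complex.normSq_mk]
  have := s3
  rw [show -(1 / 2 : ℝ) * -(1 / 2) + Real.sqrt 3 / 2 * (Real.sqrt 3 / 2) = 1 by nlinarith,
    Real.sqrt_one]

/-- The three sides. -/
def side (u v : ℂ) : Fin 3 → ℂ := ![u, v - u, -v]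

/-- The array. -/
noncomputable def arr (u v : ℂ) (i j : Fin 3) : ℂ := om ^ (j : ℕ) * side u v i

theorem arr_row (u v : ℂ) (i : Fin 3) : arr u v i 0 + arr u v i 1 + arr u v i 2 = 0 := by
  have := om_sum
  simp only [arr, Fin.val_zero, Fin.val_one, Fin.val_two, pow_zero, pow_one]
  linear_combination side u v i * this

theorem arr_col (u v : ℂ) (j : Fin 3) : arr u v 0 j + arr u v 1 j + arr u v 2 j = 0 := by
  simp only [arr, side]
  simp
  ring

theorem arr_norm (u v : ℂ) (i j : Fin 3) : ‖arr u v i j‖ = ‖side u v i‖ := by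
  simp [arr, om_norm]

theorem arr_add_row (u v : ℂ) (i j j' : Fin 3) (h : j ≠ j') :
    ‖arr u v i j + arr u v i j'‖ = ‖side u v i‖ := by
  have h0 := arr_row u v i
  have n := arr_norm u v i
  fin_cases j <;> fin_cases j' <;> simp only [Fin.zero_eta, Fin.mk_one, Fin.reduceFinMk, ne_eq,
    not_true_eq_false] at h ⊢
  · rw [show arr u v i 0 + arr u v i 1 = -arr u v i 2 by linear_combination h0, norm_neg, n]
  · rw [show arr u v i 0 + arr u v i 2 = -arr u v i 1 by linear_combination h0, norm_neg, n]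
  · rw [show arr u v i 1 + arr u v i 0 = -arr u v i 2 by linear_combination h0, norm_neg, n]
  · rw [show arr u v i 1 + arr u v i 2 = -arr u v i 0 by linear_combination h0, norm_neg, n]
  · rw [show arr u v i 2 + arr u v i 0 = -arr u v i 1 by linear_combination h0, norm_neg, n]
  · rw [show arr u v i 2 + arr u v i 1 = -arr u v i 0 by linear_combination h0, norm_neg, n]

theorem arr_add_col (u v : ℂ) (i i' j : Fin 3) (h : i ≠ i') :
    ∃ k, ‖arr u v i j + arr u v i' j‖ = ‖side u v k‖ := by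
  have h0 := arr_col u v j
  have n := fun i => arr_norm u v i j
  fin_cases i <;> fin_cases i' <;> simp only [Fin.zero_eta, Fin.mk_one, Fin.reduceFinMk, ne_eq,
    not_true_eq_false] at h ⊢
  · exact ⟨2, by
      rw [show arr u v 0 j + arr u v 1 j = -arr u v 2 j by linear_combination h0, norm_neg, n]⟩
  · exact ⟨1, by
      rw [show arr u v 0 j + arr u v 2 j = -arr u v 1 j by linear_combination h0, norm_neg, n]⟩
  · exact ⟨2, by
      rw [show arr u v 1 j + arr u v 0 j = -arr u v 2 j by linear_combination h0, norm_neg, n]⟩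
  · exact ⟨0, by
      rw [show arr u v 1 j + arr u v 2 j = -arr u v 0 j by linear_combination h0, norm_neg, n]⟩
  · exact ⟨1, by
      rw [show arr u v 2 j + arr u v 0 j = -arr u v 1 j by linear_combination h0, norm_neg, n]⟩
  · exact ⟨0, by
      rw [show arr u v 2 j + arr u v 1 j = -arr u v 0 j by linear_combination h0, norm_neg, n]⟩

/-- The squared radius `r₂ ^ 2`. -/
noncomputable def rad (u v : ℂ) : ℝ :=
  (‖u‖ ^ 2 + ‖v‖ ^ 2 + ‖u - v‖ ^ 2) / 2 - Real.sqrt 3 * |u.re * v.im - u.im * v.re|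

theorem nsq (z : ℂ) : ‖z‖ ^ 2 = z.re ^ 2 + z.im ^ 2 := by
  rw [← Complex.normSq_eq_norm_sq, Complex.normSq_apply]; ring

/-- Dot product. -/
def dotp (p q : ℂ) : ℝ := p.re * q.re + p.im * q.im

/-- Cross product. -/
def crs (p q : ℂ) : ℝ := p.re * q.im - p.im * q.re

theorem sub_om (p q : ℂ) :
    ‖p - om * q‖ ^ 2 = ‖p‖ ^ 2 + ‖q‖ ^ 2 + dotp p q + Real.sqrt 3 * crs p q := by
  have h3 := s3
  rw [nsq, nsq, nsq]
  simp only [Complex.sub_re, Complex.sub_im, Complex.mul_re, Complex.mul_im, om, dotp, crs]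
  linear_combination (q.im ^ 2 / 4 + q.re ^ 2 / 4) * h3

theorem sub_om_sq (p q : ℂ) :
    ‖p - om ^ 2 * q‖ ^ 2 = ‖p‖ ^ 2 + ‖q‖ ^ 2 + dotp p q - Real.sqrt 3 * crs p q := by
  have h3 := s3
  rw [nsq, nsq, nsq, om_sq]
  simp only [Complex.sub_re, Complex.sub_im, Complex.mul_re, Complex.mul_im, dotp, crs]
  linear_combination (q.im ^ 2 / 4 + q.re ^ 2 / 4) * h3

theorem side_dot (u v : ℂ) (i i' : Fin 3) (hi : i ≠ i') :
    ‖side u v i‖ ^ 2 + ‖side u v i'‖ ^ 2 + dotp (side u v i) (side u v i') =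
      (‖u‖ ^ 2 + ‖v‖ ^ 2 + ‖u - v‖ ^ 2) / 2 := by
  rw [nsq, nsq, nsq, nsq, nsq]
  fin_cases i <;> fin_cases i' <;> simp only [Fin.zero_eta, Fin.mk_one, Fin.reduceFinMk, ne_eq,
    not_true_eq_false] at hi <;>
  · simp only [side, dotp, Fin.zero_eta, Fin.mk_one, Fin.reduceFinMk, Matrix.cons_val_zero,
      Matrix.cons_val_one, Matrix.cons_val, Complex.sub_re, Complex.sub_im, Complex.neg_re,
      Complex.neg_im]
    ring

theorem side_crs (u v : ℂ) (i i' : Fin 3) (hi : i ≠ i') :
    |crs (side u v i) (side u v i')| = |u.re * v.im - u.im * v.re| := by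
  have h : crs (side u v i) (side u v i') = u.re * v.im - u.im * v.re ∨
      crs (side u v i) (side u v i') = -(u.re * v.im - u.im * v.re) := by
    fin_cases i <;> fin_cases i' <;> simp only [Fin.zero_eta, Fin.mk_one, Fin.reduceFinMk, ne_eq,
      not_true_eq_false] at hi
    · left; simp [side, crs]; ring
    · right; simp [side, crs]; ring
    · right; simp [side, crs]; ring
    · left; simp [side, crs]; ring
    · left; simp [side, crs]; ring
    · right; simp [side, crs]; ring
  rcases h with h | h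
  · rw [h]
  · rw [h, abs_neg]

theorem arr_minor (u v : ℂ) (i i' j j' : Fin 3) (hi : i ≠ i') (hj : j ≠ j') :
    rad u v ≤ ‖arr u v i j - arr u v i' j'‖ ^ 2 := by
  have hs := Real.sqrt_nonneg 3
  set p := side u v i with hp
  set q := side u v i' with hq
  have hd : ‖p‖ ^ 2 + ‖q‖ ^ 2 + dotp p q = (‖u‖ ^ 2 + ‖v‖ ^ 2 + ‖u - v‖ ^ 2) / 2 :=
    side_dot u v i i' hi
  have hc : |crs p q| = |u.re * v.im - u.im * v.re| := side_crs u v i i' hi
  have k1 : Real.sqrt 3 * crs p q ≤ Real.sqrt 3 * |u.re * v.im - u.im * v.re| := by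
    rw [← hc]; exact mul_le_mul_of_nonneg_left (le_abs_self _) hs
  have k2 : -(Real.sqrt 3 * |u.re * v.im - u.im * v.re|) ≤ Real.sqrt 3 * crs p q := by
    rw [← hc, ← mul_neg]; exact mul_le_mul_of_nonneg_left (neg_abs_le _) hs
  have c1 : rad u v ≤ ‖p - om * q‖ ^ 2 := by
    rw [sub_om]; unfold rad; linarith
  have c2 : rad u v ≤ ‖p - om ^ 2 * q‖ ^ 2 := by
    rw [sub_om_sq]; unfold rad; linarith
  have o3 : om ^ 3 = 1 := by
    have := om_sum
    linear_combination (om - 1) * this
  have key : ‖arr u v i j - arr u v i' j'‖ = ‖p - om * q‖ ∨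
      ‖arr u v i j - arr u v i' j'‖ = ‖p - om ^ 2 * q‖ := by
    have hn : ∀ z : ℂ, ‖om * z‖ = ‖z‖ := fun z => by rw [norm_mul, om_norm, one_mul]
    have hn2 : ∀ z : ℂ, ‖om ^ 2 * z‖ = ‖z‖ := fun z => by
      rw [norm_mul, norm_pow, om_norm, one_pow, one_mul]
    simp only [arr, ← hp, ← hq]
    fin_cases j <;> fin_cases j' <;> simp only [Fin.zero_eta, Fin.mk_one, Fin.reduceFinMk, ne_eq,
      not_true_eq_false, pow_zero, pow_one, one_mul] at hj ⊢
    · left; trivial
    · right; trivial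
    · right
      rw [← hn (p - om ^ 2 * q)]
      congr 1
      linear_combination q * o3
    · left
      rw [← hn (p - om * q)]
      congr 1
      ring
    · left
      rw [← hn2 (p - om * q)]
      congr 1
      linear_combination q * o3
    · right
      rw [← hn2 (p - om ^ 2 * q)]
      congr 1
      linear_combination (q * om) * o3
  rcases key with h | h
  · rw [h]; exact c1
  · rw [h]; exact c2

end Pool.Agent.H58.ER
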